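import Pool.Agent.Y782.SA.Stm
import Pool.Agent.Y782.SA.ES

/-!
# SA-DISC
-/

set_option autoImplicit false

open MeasureTheory ProbabilityTheory Set Filter Topology
open scoped NNReal ENNReal

namespace Pool.Agent.Y782.SA.Disc

open Pool.Agent.Y782.SA

theorem hf_cont {M : ℝ} (hM : 1 ≤ M) : Continuous (hf M) := by
  unfold hf
  refine continuous_const.mul (Continuous.log ?_ ?_)
  · refine Continuous.div (by fun_prop) (by fun_prop) fun x => by positivity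
  · intro x
    positivity

theorem hf_bd {M : ℝ} (hM : 1 ≤ M) (x : ℝ) : |hf M x| ≤ Real.log M := by
  unfold hf
  have h1 : 1 ≤ (x ^ 2 + M ^ 2) / (x ^ 2 + 1) := by
    rw [le_div_iff₀ (by positivity)]
    nlinarith
  have h2 : (x ^ 2 + M ^ 2) / (x ^ 2 + 1) ≤ M ^ 2 := by
    rw [div_le_iff₀ (by positivity)]
    nlinarith [sq_nonneg x, mul_nonneg (sq_nonneg x) (by nlinarith : (0:ℝ) ≤ M ^ 2 - 1)]
  have h3 : 0 ≤ Real.log ((x ^ 2 + M ^ 2) / (x ^ 2 + 1)) := Real.log_nonneg h1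
  have h4 : Real.log ((x ^ 2 + M ^ 2) / (x ^ 2 + 1)) ≤ 2 * Real.log M := by
    have := Real.log_le_log (by positivity) h2
    rwa [Real.log_pow] at this
  rw [abs_of_nonneg (by positivity)]
  linarith

theorem stepW_update {E : Type} [NormedAddCommGroup E] [InnerProductSpace ℝ E] {ι : Type}
    [Fintype ι] [DecidableEq ι] (A : ι → E →L[ℝ] E) (D n : ℕ) (V : Fin n × ι → ℝ)
    (p : Fin n × ι) :
    stepW A D n (Function.update V p 0) = fun x => stepW A D n V x +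
      if ((p.1 : ℕ) + 1 : ℝ) / D ≤ x then -((V p / Real.sqrt D) • A p.2) else 0 := by
  funext x
  unfold stepW
  rw [← Finset.add_sum_erase _ _ (Finset.mem_univ p), ← Finset.add_sum_erase Finset.univ
    (fun q : Fin n × ι => if ((q.1 : ℕ) + 1 : ℝ) / D ≤ x then (V q / Real.sqrt D) • A q.2 else 0)
    (Finset.mem_univ p)]
  have h1 : ∑ q ∈ Finset.univ.erase p, (if ((q.1 : ℕ) + 1 : ℝ) / D ≤ x then
      (Function.update V p 0 q / Real.sqrt D) • A q.2 else 0) =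
      ∑ q ∈ Finset.univ.erase p, (if ((q.1 : ℕ) + 1 : ℝ) / D ≤ x then
      (V q / Real.sqrt D) • A q.2 else 0) := by
    refine Finset.sum_congr rfl fun q hq => ?_
    rw [Function.update_of_ne (Finset.ne_of_mem_erase hq)]
  rw [h1, Function.update_self]
  split_ifs with h
  · simp
  · simp

/-- numerical inequality -/
theorem num_bd {z C a s B w d r : ℝ} (hC : 0 ≤ C) (ha : 0 ≤ a) (hs : 0 ≤ s)
    (hB0 : 0 ≤ B) (hB1 : B ^ 2 ≤ z ^ 2 * a ^ 2 * r ^ 2) (hB2 : B ≤ |z| * a) (hr : 0 ≤ r) (hd : 0 ≤ d)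
    (hw : 0 ≤ w) :
    (6 * d * B * w * (C + B + 32 * B ^ 2 + s + 1)) ^ 2 ≤
      (r ^ 2 * w ^ 2) * (36 * d ^ 2 * a ^ 2 * ((z ^ 4 + 125 * (C ^ 4 + a ^ 4 * z ^ 4 +
        (32 * a ^ 2) ^ 4 * z ^ 8 + s ^ 4 + 1)) / 2)) := by
  set P := C + |z| * a + 32 * (|z| * a) ^ 2 + s + 1 with hP
  have hP0 : 0 ≤ P := by positivity
  have h1 : C + B + 32 * B ^ 2 + s + 1 ≤ P := by
    have : B ^ 2 ≤ (|z| * a) ^ 2 := pow_le_pow_left₀ hB0 hB2 2
    rw [hP]; linarith
  have h2 : (6 * d * B * w * (C + B + 32 * B ^ 2 + s + 1)) ^ 2 ≤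
      36 * d ^ 2 * w ^ 2 * (z ^ 2 * a ^ 2 * r ^ 2) * P ^ 2 := by
    have e1 : (6 * d * B * w * (C + B + 32 * B ^ 2 + s + 1)) ^ 2 =
        36 * d ^ 2 * w ^ 2 * (B ^ 2 * (C + B + 32 * B ^ 2 + s + 1) ^ 2) := by ring
    rw [e1]
    have e2 : B ^ 2 * (C + B + 32 * B ^ 2 + s + 1) ^ 2 ≤ (z ^ 2 * a ^ 2 * r ^ 2) * P ^ 2 :=
      mul_le_mul hB1 (pow_le_pow_left₀ (by positivity) h1 2) (by positivity) (by positivity)
    calc 36 * d ^ 2 * w ^ 2 * (B ^ 2 * (C + B + 32 * B ^ 2 + s + 1) ^ 2)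
        ≤ 36 * d ^ 2 * w ^ 2 * ((z ^ 2 * a ^ 2 * r ^ 2) * P ^ 2) :=
          mul_le_mul_of_nonneg_left e2 (by positivity)
      _ = _ := by ring
  have h3 : z ^ 2 * P ^ 2 ≤ (z ^ 4 + P ^ 4) / 2 := by nlinarith [sq_nonneg (z ^ 2 - P ^ 2)]
  have h4 : P ^ 4 ≤ 125 * (C ^ 4 + a ^ 4 * z ^ 4 + (32 * a ^ 2) ^ 4 * z ^ 8 + s ^ 4 + 1) := by
    have hz4 : |z| ^ 4 = z ^ 4 := by
      rw [show (4:ℕ) = 2 * 2 from rfl, pow_mul, pow_mul, sq_abs]
    have hz8 : |z| ^ 8 = z ^ 8 := by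
      rw [show (8:ℕ) = 2 * 4 from rfl, pow_mul, pow_mul, sq_abs]
    have h5 : ∀ x1 x2 x3 x4 x5 : ℝ, (x1 + x2 + x3 + x4 + x5) ^ 4 ≤
        125 * (x1 ^ 4 + x2 ^ 4 + x3 ^ 4 + x4 ^ 4 + x5 ^ 4) := by
      intro x1 x2 x3 x4 x5
      have q0 : ∀ y1 y2 y3 y4 y5 : ℝ, (y1 + y2 + y3 + y4 + y5) ^ 2 ≤
          5 * (y1 ^ 2 + y2 ^ 2 + y3 ^ 2 + y4 ^ 2 + y5 ^ 2) := by
        intro y1 y2 y3 y4 y5
        have e : 5 * (y1 ^ 2 + y2 ^ 2 + y3 ^ 2 + y4 ^ 2 + y5 ^ 2) - (y1 + y2 + y3 + y4 + y5) ^ 2 =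
          (y1 - y2) ^ 2 + (y1 - y3) ^ 2 + (y1 - y4) ^ 2 + (y1 - y5) ^ 2 + (y2 - y3) ^ 2 +
          (y2 - y4) ^ 2 + (y2 - y5) ^ 2 + (y3 - y4) ^ 2 + (y3 - y5) ^ 2 + (y4 - y5) ^ 2 := by ring
        have e' : 0 ≤ (y1 - y2) ^ 2 + (y1 - y3) ^ 2 + (y1 - y4) ^ 2 + (y1 - y5) ^ 2 +
          (y2 - y3) ^ 2 + (y2 - y4) ^ 2 + (y2 - y5) ^ 2 + (y3 - y4) ^ 2 + (y3 - y5) ^ 2 +
          (y4 - y5) ^ 2 := by positivity
        linarith
      have q1 := q0 x1 x2 x3 x4 x5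
      have q2 := q0 (x1 ^ 2) (x2 ^ 2) (x3 ^ 2) (x4 ^ 2) (x5 ^ 2)
      have q5 : 5 * ((x1 ^ 2) ^ 2 + (x2 ^ 2) ^ 2 + (x3 ^ 2) ^ 2 + (x4 ^ 2) ^ 2 + (x5 ^ 2) ^ 2) =
        5 * (x1 ^ 4 + x2 ^ 4 + x3 ^ 4 + x4 ^ 4 + x5 ^ 4) := by ring
      rw [q5] at q2
      have q3 : (x1 + x2 + x3 + x4 + x5) ^ 4 = ((x1 + x2 + x3 + x4 + x5) ^ 2) ^ 2 := by ring
      rw [q3]
      have q4 := pow_le_pow_left₀ (sq_nonneg (x1 + x2 + x3 + x4 + x5)) q1 2
      refine q4.trans ?_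
      rw [mul_pow]
      linarith
    have h6 := h5 C (|z| * a) (32 * (|z| * a) ^ 2) s 1
    refine h6.trans (le_of_eq ?_)
    have e1 : (|z| * a) ^ 4 = a ^ 4 * z ^ 4 := by rw [mul_pow, hz4]; ring
    have e2 : (32 * (|z| * a) ^ 2) ^ 4 = (32 * a ^ 2) ^ 4 * z ^ 8 := by
      rw [← hz8]; ring
    rw [e1, e2]; ring
  calc (6 * d * B * w * (C + B + 32 * B ^ 2 + s + 1)) ^ 2
      ≤ 36 * d ^ 2 * w ^ 2 * (z ^ 2 * a ^ 2 * r ^ 2) * P ^ 2 := h2
    _ = (r ^ 2 * w ^ 2) * (36 * d ^ 2 * a ^ 2 * (z ^ 2 * P ^ 2)) := by ring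
    _ ≤ _ := by
      refine mul_le_mul_of_nonneg_left (mul_le_mul_of_nonneg_left ?_ (by positivity))
        (by positivity)
      linarith

theorem int_pow (k : ℕ) : Integrable (fun z : ℝ => z ^ (2 * k)) (gaussianReal 0 1) := by
  have h := (memLp_id_gaussianReal (μ := 0) (v := 1) ((2 * k : ℕ) : ℝ≥0)).integrable_norm_pow'
  refine h.congr (Eventually.of_forall fun z => ?_)
  simp [pow_mul]

theorem disc (hB : S_BASE) (hT : S_STEP) (hP : S_PERT) (hM : S_MOM) (hE : S_EIG)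
    (hL : S_LCONT) : S_DISC := by
  intro E _ _ _ ι _ A κ S hκ hS hA
  classical
  obtain ⟨K, hK0, hK⟩ := hM E ι A κ hκ
  set a : ℝ := ∑ α, ‖A α‖ with ha
  have ha0 : 0 ≤ a := Finset.sum_nonneg fun _ _ => norm_nonneg _
  have haA : ∀ α, ‖A α‖ ≤ a := fun α =>
    Finset.single_le_sum (f := fun α => ‖A α‖) (fun _ _ => norm_nonneg _) (Finset.mem_univ α)
  set d : ℝ := (Module.finrank ℝ E : ℝ) with hd
  have hd0 : 0 ≤ d := Nat.cast_nonneg _
  set s : ℝ := 4 * ‖S‖ ^ 2 with hs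
  have hs0 : 0 ≤ s := by positivity
  set G4 : ℝ := ∫ z : ℝ, z ^ 4 ∂(gaussianReal 0 1) with hG4
  set G8 : ℝ := ∫ z : ℝ, z ^ 8 ∂(gaussianReal 0 1) with hG8
  have hG4' : 0 ≤ G4 := integral_nonneg fun z => by positivity
  have hG8' : 0 ≤ G8 := integral_nonneg fun z => by positivity
  set K₁ : ℝ := 36 * d ^ 2 * a ^ 2 * ((G4 + 125 * (K + a ^ 4 * G4 +
    (32 * a ^ 2) ^ 4 * G8 + s ^ 4 + 1)) / 2) with hK₁
  have hK₁0 : 0 ≤ K₁ := by positivity
  refine ⟨Fintype.card ι * K₁, by positivity, ?_⟩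
  intro D n m v M hD hv hM1
  have hDpos : (0 : ℝ) < D := by exact_mod_cast hD
  set Pm : Measure (Fin n × ι → ℝ) := Measure.pi fun _ => gaussianReal 0 1 with hPm
  have hgood : ∀ ξ, GoodW (stepW A D n ξ) := fun ξ => ((hT E).2 ι A D n ξ hA hD).1
  have hG : (matG v).PosDef :=
    ((hB E κ S _ hS (hgood 0) m v hv.test).2.2.2.2 hv).1
  set F : (Fin n × ι → ℝ) → ℝ := fun ξ => Tm M (matQ κ S (stepW A D n ξ) v) (matG v) with hF
  have hFe : ∀ ξ, F ξ = ∑ k ∈ Finset.range m,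
      hf M (lam ⊤ (qf (matQ κ S (stepW A D n ξ) v)) (qf (matG v)) k) := fun ξ =>
    hE m _ _ M (hB E κ S _ hS (hgood ξ) m v hv.test).1 hG hM1
  have hQc : Continuous (fun ξ : Fin n × ι → ℝ => matQ κ S (stepW A D n ξ) v) := by
    refine continuous_matrix fun i j => ?_
    have : ∀ ξ : Fin n × ι → ℝ, matQ κ S (stepW A D n ξ) v i j = _ := fun ξ =>
      ((hT E).2 ι A D n ξ hA hD).2 κ S (v i) (v j) (hv.test i) (hv.test j)
    simp_rw [this]
    fun_prop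
  have hFc : Continuous F := by
    have : F = fun ξ => ∑ k ∈ Finset.range m,
      hf M (lam ⊤ (qf (matQ κ S (stepW A D n ξ) v)) (qf (matG v)) k) := funext hFe
    rw [this]
    refine continuous_finsetSum _ fun k hk => ?_
    exact (hf_cont hM1).comp ((hL m (matG v) k hG (Finset.mem_range.1 hk)).comp hQc)
  have hFb : ∀ ξ, |F ξ| ≤ m * Real.log M := by
    intro ξ
    rw [hFe]
    refine (Finset.abs_sum_le_sum_abs _ _).trans ?_
    refine (Finset.sum_le_sum fun k _ => hf_bd hM1 _).trans ?_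
    simp
  refine ⟨hFc.measurable, ?_⟩
  -- the mean
  set c : ℝ := ∫ ξ, F ξ ∂Pm with hc
  refine ⟨c, ?_⟩
  have hsqi : Integrable (fun ξ => (F ξ - c) ^ 2) Pm := by
    refine Integrable.of_bound ((hFc.sub continuous_const).pow 2).aestronglyMeasurable
      ((m * Real.log M + |c|) ^ 2) (Eventually.of_forall fun ξ => ?_)
    rw [Real.norm_eq_abs, abs_pow]
    refine pow_le_pow_left₀ (abs_nonneg _) ?_ 2
    exact (abs_sub _ _).trans (add_le_add_left (hFb ξ) _)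
  rw [← ofReal_integral_eq_lintegral_ofReal hsqi (Eventually.of_forall fun ξ => sq_nonneg _)]
  refine ENNReal.ofReal_le_ofReal ?_
  -- Efron-Stein
  have hES := ES.es (Fin n × ι) (gaussianReal 0 1) (fun ξ => ((F ξ : ℝ) : ℂ))
    (Complex.continuous_ofReal.comp hFc) ⟨m * Real.log M, fun V => by
      rw [Complex.norm_real, Real.norm_eq_abs]; exact hFb V⟩
  have hmean : ∫ U, ((F U : ℝ) : ℂ) ∂Pm = (c : ℂ) := by
    rw [integral_complex_ofReal]
  rw [hmean] at hES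
  have hn : ∀ x y : ℝ, ‖(x : ℂ) - (y : ℂ)‖ ^ 2 = (x - y) ^ 2 := by
    intro x y
    rw [← Complex.ofReal_sub, Complex.norm_real, Real.norm_eq_abs, sq_abs]
  simp only [hn] at hES
  refine hES.trans ?_
  -- the roughness constant
  obtain ⟨C, hCm, hC0, hCR, hC4⟩ := hK D n hD
  have hC4i : Integrable (fun ξ => C ξ ^ 4) Pm := by
    refine ⟨(hCm.pow_const 4).aestronglyMeasurable, ?_⟩
    rw [hasFiniteIntegral_iff_ofReal (Eventually.of_forall fun ξ => pow_nonneg (hC0 ξ) 4)]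
    exact hC4.trans_lt ENNReal.ofReal_lt_top
  have hC4' : ∫ ξ, C ξ ^ 4 ∂Pm ≤ K := by
    rw [integral_eq_lintegral_of_nonneg_ae (Eventually.of_forall fun ξ => pow_nonneg (hC0 ξ) 4)
      (hCm.pow_const 4).aestronglyMeasurable]
    exact ENNReal.toReal_le_of_le_ofReal hK0 hC4
  -- one coordinate
  have hone : ∀ p : Fin n × ι, ∫ V, (F V - F (Function.update V p 0)) ^ 2 ∂Pm ≤
      1 / (κ * ((p.1 : ℕ) + 1) + D) * K₁ := by
    intro p
    set t : ℝ := ((p.1 : ℕ) + 1 : ℝ) / D with ht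
    have ht0 : 0 < t := by positivity
    set r : ℝ := (Real.sqrt D)⁻¹ with hr
    have hr0 : 0 ≤ r := by positivity
    have hr1 : r ≤ 1 := by
      rw [hr]
      refine inv_le_one_of_one_le₀ ?_
      rw [Real.one_le_sqrt]
      exact_mod_cast hD
    set w : ℝ := (Real.sqrt (κ * t + 1))⁻¹ with hw
    have hw0 : 0 ≤ w := by positivity
    have hrw : r ^ 2 * w ^ 2 = 1 / (κ * ((p.1 : ℕ) + 1) + D) := by
      rw [hr, hw, inv_pow, inv_pow, Real.sq_sqrt hDpos.le, Real.sq_sqrt (by positivity), ht]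
      field_simp
    have hpt : ∀ V, (F V - F (Function.update V p 0)) ^ 2 ≤
        (r ^ 2 * w ^ 2) * (36 * d ^ 2 * a ^ 2 * (((V p) ^ 4 + 125 * (C V ^ 4 + a ^ 4 * (V p) ^ 4 +
        (32 * a ^ 2) ^ 4 * (V p) ^ 8 + s ^ 4 + 1)) / 2)) := by
      intro V
      set B : E →L[ℝ] E := -((V p / Real.sqrt D) • A p.2) with hBd
      have hBsym : Sym B := by
        intro x y
        have := hA p.2 x y
        simp only [hBd, neg_apply, smul_apply, inner_neg_left, inner_neg_right,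
          inner_smul_left, inner_smul_right, this]
        simp
      have h1 := hP E κ (C V) S (stepW A D n V) B t M m v hκ (hC0 V) hS (hgood V) (hCR V) hBsym
        ht0 hM1 hv
      have h2 : F (Function.update V p 0) = Tm M (matQ κ S (fun x => stepW A D n V x +
          if t ≤ x then B else 0) v) (matG v) := by
        rw [hF]
        simp only
        rw [stepW_update A D n V p]
      rw [← h2] at h1
      have hBn : ‖B‖ = |V p| * r * ‖A p.2‖ := by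
        rw [hBd, norm_neg, norm_smul, Real.norm_eq_abs, abs_div, abs_of_nonneg (Real.sqrt_nonneg _),
          div_eq_mul_inv]
      have hB1 : ‖B‖ ^ 2 ≤ (V p) ^ 2 * a ^ 2 * r ^ 2 := by
        rw [hBn, mul_pow, mul_pow, sq_abs]
        have : ‖A p.2‖ ^ 2 ≤ a ^ 2 := pow_le_pow_left₀ (norm_nonneg _) (haA _) 2
        calc (V p) ^ 2 * r ^ 2 * ‖A p.2‖ ^ 2 ≤ (V p) ^ 2 * r ^ 2 * a ^ 2 :=
              mul_le_mul_of_nonneg_left this (by positivity)
          _ = _ := by ring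
      have hB2 : ‖B‖ ≤ |V p| * a := by
        rw [hBn]
        calc |V p| * r * ‖A p.2‖ ≤ |V p| * 1 * a := by
              refine mul_le_mul (mul_le_mul_of_nonneg_left hr1 (abs_nonneg _)) (haA _)
                (norm_nonneg _) (by positivity)
          _ = _ := by ring
      have h3 : (F V - F (Function.update V p 0)) ^ 2 ≤
          (6 * d * ‖B‖ * w * (C V + ‖B‖ + 32 * ‖B‖ ^ 2 + s + 1)) ^ 2 := by
        rw [← sq_abs, abs_sub_comm]
        exact pow_le_pow_left₀ (abs_nonneg _) h1 2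
      exact h3.trans (num_bd (hC0 V) ha0 hs0 (norm_nonneg _) hB1 hB2 hr0 hd0 hw0)
    -- integrate
    have hmp : MeasurePreserving (Function.eval p) Pm (gaussianReal 0 1) :=
      measurePreserving_eval (fun _ : Fin n × ι => gaussianReal 0 1) p
    have i4 : Integrable (fun V : Fin n × ι → ℝ => (V p) ^ 4) Pm :=
      hmp.integrable_comp_of_integrable (int_pow 2)
    have i8 : Integrable (fun V : Fin n × ι → ℝ => (V p) ^ 8) Pm :=
      hmp.integrable_comp_of_integrable (int_pow 4)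
    have e4 : ∫ V : Fin n × ι → ℝ, (V p) ^ 4 ∂Pm = G4 := by
      have := integral_map hmp.aemeasurable (f := fun z : ℝ => z ^ 4)
        (continuous_pow 4).aestronglyMeasurable
      rw [hmp.map_eq] at this
      exact this.symm
    have e8 : ∫ V : Fin n × ι → ℝ, (V p) ^ 8 ∂Pm = G8 := by
      have := integral_map hmp.aemeasurable (f := fun z : ℝ => z ^ 8)
        (continuous_pow 8).aestronglyMeasurable
      rw [hmp.map_eq] at this
      exact this.symm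
    have j4 : Integrable (fun V : Fin n × ι → ℝ => a ^ 4 * (V p) ^ 4) Pm := i4.const_mul _
    have j8 : Integrable (fun V : Fin n × ι → ℝ => (32 * a ^ 2) ^ 4 * (V p) ^ 8) Pm :=
      i8.const_mul _
    have k1 : Integrable (fun V : Fin n × ι → ℝ => C V ^ 4 + a ^ 4 * (V p) ^ 4) Pm := hC4i.add j4
    have k2 : Integrable (fun V : Fin n × ι → ℝ => C V ^ 4 + a ^ 4 * (V p) ^ 4 +
        (32 * a ^ 2) ^ 4 * (V p) ^ 8) Pm := k1.add j8
    have k3 : Integrable (fun V : Fin n × ι → ℝ => C V ^ 4 + a ^ 4 * (V p) ^ 4 +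
        (32 * a ^ 2) ^ 4 * (V p) ^ 8 + s ^ 4) Pm := k2.add (integrable_const _)
    have i1 : Integrable (fun V : Fin n × ι → ℝ => C V ^ 4 + a ^ 4 * (V p) ^ 4 +
        (32 * a ^ 2) ^ 4 * (V p) ^ 8 + s ^ 4 + 1) Pm := k3.add (integrable_const _)
    have i1' : Integrable (fun V : Fin n × ι → ℝ => 125 * (C V ^ 4 + a ^ 4 * (V p) ^ 4 +
        (32 * a ^ 2) ^ 4 * (V p) ^ 8 + s ^ 4 + 1)) Pm := i1.const_mul 125
    have i2 : Integrable (fun V : Fin n × ι → ℝ => (r ^ 2 * w ^ 2) * (36 * d ^ 2 * a ^ 2 *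
        (((V p) ^ 4 + 125 * (C V ^ 4 + a ^ 4 * (V p) ^ 4 +
        (32 * a ^ 2) ^ 4 * (V p) ^ 8 + s ^ 4 + 1)) / 2))) Pm :=
      (((i4.add (i1.const_mul 125)).div_const 2).const_mul _).const_mul _
    have i3 : Integrable (fun V => (F V - F (Function.update V p 0)) ^ 2) Pm := by
      have hcu : Continuous fun V : Fin n × ι → ℝ => F (Function.update V p 0) :=
        hFc.comp (continuous_id.update p continuous_const)
      refine Integrable.of_bound ((hFc.sub hcu).pow 2).aestronglyMeasurable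
        ((m * Real.log M + m * Real.log M) ^ 2) (Eventually.of_forall fun ξ => ?_)
      rw [Real.norm_eq_abs, abs_pow]
      refine pow_le_pow_left₀ (abs_nonneg _) ?_ 2
      exact (abs_sub _ _).trans (add_le_add (hFb _) (hFb _))
    refine (integral_mono i3 i2 hpt).trans ?_
    rw [integral_const_mul, integral_const_mul, integral_div, integral_add i4 i1',
      integral_const_mul, integral_add k3 (integrable_const _), integral_add k2 (integrable_const _),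
      integral_add k1 j8, integral_add hC4i j4, integral_const_mul, integral_const_mul, e4, e8, hrw]
    simp only [integral_const, probReal_univ, one_smul]
    refine mul_le_mul_of_nonneg_left ?_ (by positivity)
    rw [hK₁]
    gcongr
  refine (Finset.sum_le_sum fun p _ => hone p).trans ?_
  rw [Fintype.sum_prod_type]
  simp only [Finset.sum_const, Finset.card_univ, nsmul_eq_mul]
  rw [Finset.sum_range, Finset.mul_sum]
  refine le_of_eq (Finset.sum_congr rfl fun k _ => ?_)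
  ring

end Pool.Agent.Y782.SA.Disc
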