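import Pool.Agent.Y782.SA.FinalF
import Pool.Agent.Y782.SA.Disc
import Pool.Agent.Y71.SA.BASE
import Pool.Agent.Y71.SA.STEP
import Pool.Agent.Y71.SA.FM
import Pool.Agent.Y658.SA.G
import Pool.Agent.Y658.SA.RK
import Pool.Agent.Y658.SA.PERT
import Pool.Agent.Y282.SA.LB
import Pool.Agent.Y282.SA.CUT
import Pool.Agent.Y282.SA.BML
import Pool.Agent.Y282.SA.FIN
import Pool.Agent.Y301.SA.EIG
import Pool.Agent.Y301.SA.GAL
import Pool.Agent.Y297.SA.Cnt
import Pool.Agent.Y461.SA.LIM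
import Pool.Agent.Y461.SA.RIG
import Pool.Agent.Y461.SA.SUM
import Pool.Agent.Y51.SA.DConv
import Pool.Agent.Y51.SA.Opm
import Pool.Agent.Y505.SA.Max
import Pool.Agent.Y505.SA.Mom

/-!
# Putting the parts together
-/

set_option autoImplicit false

namespace Pool.Agent.Y782.SA

theorem inp (hMOM : S_MOM) : Inp where
  base := Pool.Agent.Y71.SA.base
  step := Pool.Agent.Y71.SA.step
  lb := Pool.Agent.Y282.SA.lb
  eig := Pool.Agent.Y301.SA.t_EIG
  lcont := Pool.Agent.Y301.SA.t_LCONT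
  disc := Disc.disc Pool.Agent.Y71.SA.base Pool.Agent.Y71.SA.step
    (Pool.Agent.Y658.SA.pert Pool.Agent.Y71.SA.base Pool.Agent.Y71.SA.step
      Pool.Agent.Y658.SA.rk Pool.Agent.Y282.SA.lb Pool.Agent.Y658.SA.g_bound)
    hMOM Pool.Agent.Y301.SA.t_EIG Pool.Agent.Y301.SA.t_LCONT
  bml := Pool.Agent.Y282.SA.bml
  dconv := Pool.Agent.Y51.SA.dconv
  fin := Pool.Agent.Y282.SA.fin hMOM Pool.Agent.Y282.SA.bml Pool.Agent.Y51.SA.dconv
  gal := Pool.Agent.Y301.SA.t_GAL Pool.Agent.Y71.SA.base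
  cnt := Pool.Agent.Y297SA.cnt Pool.Agent.Y71.SA.base Pool.Agent.Y658.SA.g_bound
  cut := Pool.Agent.Y282.SA.cut
  lim := Pool.Agent.Y461.SA.lim
  sum := Pool.Agent.Y461.SA.sum
  tail := Pool.Agent.Y461.SA.tail
  rig := Pool.Agent.Y461.SA.rig
  log := Pool.Agent.Y461.SA.log
  bc := Pool.Agent.Y461.SA.bc

theorem all (hMOM : S_MOM) : S_FINAL :=
  final (main (inp hMOM)) Pool.Agent.Y51.SA.rch Pool.Agent.Y51.SA.opm Pool.Agent.Y71.SA.FM.fm

theorem momM : S_MOM := Pool.Agent.Y505.SA.mom Pool.Agent.Y505.SA.max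

theorem all' : S_FINAL := all momM

end Pool.Agent.Y782.SA
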