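import Pool.Agent.Y782.SA.Stm

/-!
# Assembly, deterministic part
-/

set_option autoImplicit false

open MeasureTheory ProbabilityTheory Set Filter Topology
open scoped NNReal ENNReal

namespace Pool.Agent.Y782.SA

section mm

variable {X : Type} [AddCommGroup X] [Module ℝ X]

theorem mmset_up {U : Submodule ℝ X} {q n : X → ℝ} {k : ℕ} {s s' : ℝ} (h : s ∈ mmset U q n k)
    (hs : s ≤ s') : s' ∈ mmset U q n k := by
  obtain ⟨φ, hφ, h⟩ := h
  refine ⟨φ, hφ, fun c hc => ⟨(h c hc).1, (h c hc).2.trans ?_⟩⟩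
  exact mul_le_mul_of_nonneg_right hs (h c hc).1.le

theorem mmset_mono {U U' : Submodule ℝ X} {q n : X → ℝ} {k : ℕ} (hU : U ≤ U') :
    mmset U q n k ⊆ mmset U' q n k := by
  rintro s ⟨φ, hφ, h⟩
  exact ⟨φ, fun i => hU (hφ i), h⟩

theorem mmset_of_lt {U : Submodule ℝ X} {q n : X → ℝ} {k : ℕ} {s : ℝ}
    (hne : (mmset U q n k).Nonempty) (hs : lam U q n k < s) : s ∈ mmset U q n k := by
  obtain ⟨t, ht, hts⟩ := exists_lt_of_csInf_lt hne hs
  exact mmset_up ht hts.le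

end mm

variable {E : Type} [NormedAddCommGroup E] [InnerProductSpace ℝ E] [FiniteDimensional ℝ E]

theorem tstL_le (L : ℝ) : tstL E L ≤ tst E := fun _ hf => hf.1

variable (E) in
/-- growth constant -/
noncomputable def gr (κ : ℝ) : ℝ := (κ / (24 * Module.finrank ℝ E)) ^ (2 / 3 : ℝ)

theorem gr_pos [Nontrivial E] {κ : ℝ} (hκ : 0 < κ) : 0 < gr E κ := by
  unfold gr
  have : 0 < (Module.finrank ℝ E : ℝ) := by exact_mod_cast Module.finrank_pos
  positivity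

section det

variable [Nontrivial E] {κ C : ℝ} {S : E →L[ℝ] E} {W : ℝ → E →L[ℝ] E}

theorem growth_mem (hCNT : S_CNT) (hκ : 0 < κ) (hC : 0 ≤ C) (hW : GoodW W) (hLB : LB κ C S W)
    {U : Submodule ℝ (ℝ → E)} (hU : U ≤ tst E) {k : ℕ} {s : ℝ}
    (hs : s ∈ mmset U (form κ S W) nsq k) :
    gr E κ * ((k : ℝ) + 1) ^ (2 / 3 : ℝ) - (C + 1) ≤ s := by
  have h := hCNT E κ C S W hκ hC hW hLB U hU k s hs
  have h1 : (κ * ((k : ℝ) + 1) / (24 * Module.finrank ℝ E)) ^ (2 / 3 : ℝ)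
      = gr E κ * ((k : ℝ) + 1) ^ (2 / 3 : ℝ) := by
    unfold gr
    rw [← Real.mul_rpow (by positivity) (by positivity)]
    congr 1
    ring
  rw [h1] at h
  linarith

theorem bddb (hCNT : S_CNT) (hκ : 0 < κ) (hC : 0 ≤ C) (hW : GoodW W) (hLB : LB κ C S W)
    {U : Submodule ℝ (ℝ → E)} (hU : U ≤ tst E) (k : ℕ) :
    BddBelow (mmset U (form κ S W) nsq k) :=
  ⟨_, fun _ hs => growth_mem hCNT hκ hC hW hLB hU hs⟩

theorem growth (hCNT : S_CNT) (hκ : 0 < κ) (hC : 0 ≤ C) (hW : GoodW W) (hLB : LB κ C S W)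
    {U : Submodule ℝ (ℝ → E)} (hU : U ≤ tst E) {k : ℕ}
    (hne : (mmset U (form κ S W) nsq k).Nonempty) :
    gr E κ * ((k : ℝ) + 1) ^ (2 / 3 : ℝ) - (C + 1) ≤ lam U (form κ S W) nsq k :=
  le_csInf hne fun _ hs => growth_mem hCNT hκ hC hW hLB hU hs

theorem lam_mono (hCNT : S_CNT) (hκ : 0 < κ) (hC : 0 ≤ C) (hW : GoodW W) (hLB : LB κ C S W)
    {L : ℝ} {k : ℕ} (hne : (mmset (tstL E L) (form κ S W) nsq k).Nonempty) :
    lam (tst E) (form κ S W) nsq k ≤ lam (tstL E L) (form κ S W) nsq k :=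
  csInf_le_csInf (bddb hCNT hκ hC hW hLB le_rfl k) hne (mmset_mono (tstL_le L))

/-- The cut-off estimate for the min-max values. -/
theorem cut (hCNT : S_CNT) {c₀ : ℝ} (hc₀ : 0 ≤ c₀)
    (hCUT : ∀ (k : ℕ) (s L : ℝ), s ∈ mmset (tst E) (form κ S W) nsq k →
      2 ≤ L → 8 * (|s| + C) ≤ κ * L →
      s + 8 * (|s| + C) * (c₀ + C + |s|) / (κ * L) ∈ mmset (tstL E L) (form κ S W) nsq k)
    (hκ : 0 < κ) (hC : 0 ≤ C) (hW : GoodW W) (hLB : LB κ C S W)
    {L : ℝ} {k : ℕ} (hne : (mmset (tst E) (form κ S W) nsq k).Nonempty)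
    (hL : (2 + 8 * (2 + C) * (1 + c₀ + C) / κ) * (1 + |lam (tst E) (form κ S W) nsq k|) ≤ L) :
    lam (tstL E L) (form κ S W) nsq k ≤ lam (tst E) (form κ S W) nsq k +
      (2 + 8 * (2 + C) * (1 + c₀ + C) / κ) * (1 + |lam (tst E) (form κ S W) nsq k|) ^ 2 / L := by
  set a := lam (tst E) (form κ S W) nsq k with ha
  set c₂ := 2 + 8 * (2 + C) * (1 + c₀ + C) / κ with hc₂
  have ha0 : 0 ≤ |a| := abs_nonneg a
  have hc₂' : 2 ≤ c₂ := by
    have : 0 ≤ 8 * (2 + C) * (1 + c₀ + C) / κ := by positivity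
    linarith
  have hL2 : 2 ≤ L := by nlinarith
  have hL0 : 0 < L := by linarith
  have hκL : κ * c₂ * (1 + |a|) ≤ κ * L := by
    have := mul_le_mul_of_nonneg_left hL hκ.le
    linarith
  have hκc : κ * c₂ = 2 * κ + 8 * (2 + C) * (1 + c₀ + C) := by
    rw [hc₂]; field_simp
  -- for s slightly larger than a
  have key : ∀ s, a < s → s < a + 1 →
      lam (tstL E L) (form κ S W) nsq k ≤ s + 8 * (|s| + C) * (c₀ + C + |s|) / (κ * L) := by
    intro s h1 h2
    have hs : |s| ≤ |a| + 1 := by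
      have : |s| ≤ |a| + |s - a| := by
        have := abs_add_le a (s - a); simpa using this
      have h3 : |s - a| ≤ 1 := by rw [abs_of_pos (by linarith)]; linarith
      linarith
    refine csInf_le (bddb hCNT hκ hC hW hLB (tstL_le L) k) (hCUT k s L (mmset_of_lt hne h1) hL2 ?_)
    have : 8 * (|s| + C) ≤ κ * c₂ * (1 + |a|) := by
      rw [hκc]
      have h5 : 0 ≤ c₀ * |a| := by positivity
      have h6 : 0 ≤ C * |a| := by positivity
      have h7 : 0 ≤ C * c₀ := by positivity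
      have h8 : 0 ≤ C * C := by positivity
      have h9 : 0 ≤ C * c₀ * |a| := by positivity
      have h10 : 0 ≤ C * C * |a| := by positivity
      have h11 : 0 ≤ κ * |a| := by positivity
      nlinarith
    linarith
  have hlim : Tendsto (fun s : ℝ => s + 8 * (|s| + C) * (c₀ + C + |s|) / (κ * L)) (𝓝[>] a)
      (𝓝 (a + 8 * (|a| + C) * (c₀ + C + |a|) / (κ * L))) := by
    have : Continuous fun s : ℝ => s + 8 * (|s| + C) * (c₀ + C + |s|) / (κ * L) := by fun_prop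
    exact (this.tendsto a).mono_left nhdsWithin_le_nhds
  have h1 : lam (tstL E L) (form κ S W) nsq k ≤ a + 8 * (|a| + C) * (c₀ + C + |a|) / (κ * L) := by
    refine ge_of_tendsto hlim ?_
    filter_upwards [Ioo_mem_nhdsGT (show a < a + 1 by linarith)] with s hs
    exact key s hs.1 hs.2
  refine h1.trans ?_
  have h2 : 8 * (|a| + C) * (c₀ + C + |a|) / (κ * L) ≤ c₂ * (1 + |a|) ^ 2 / L := by
    rw [div_le_div_iff₀ (by positivity) hL0]
    have h3 : 8 * (|a| + C) * (c₀ + C + |a|) ≤ (κ * c₂) * (1 + |a|) ^ 2 := by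
      rw [hκc]
      have e1 : |a| + C ≤ (2 + C) * (1 + |a|) := by nlinarith [mul_nonneg hC ha0]
      have e2 : c₀ + C + |a| ≤ (1 + c₀ + C) * (1 + |a|) := by
        nlinarith [mul_nonneg hC ha0, mul_nonneg hc₀ ha0]
      have e3 : (|a| + C) * (c₀ + C + |a|) ≤ ((2 + C) * (1 + |a|)) * ((1 + c₀ + C) * (1 + |a|)) :=
        mul_le_mul e1 e2 (by positivity) (by positivity)
      have e4 : 0 ≤ 2 * κ * (1 + |a|) ^ 2 := by positivity
      nlinarith
    calc 8 * (|a| + C) * (c₀ + C + |a|) * L ≤ (κ * c₂) * (1 + |a|) ^ 2 * L :=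
          mul_le_mul_of_nonneg_right h3 hL0.le
      _ = c₂ * (1 + |a|) ^ 2 * (κ * L) := by ring
  linarith

end det

end Pool.Agent.Y782.SA
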