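import Pool.Agent.Y782.SA.Asm1

/-!
# Assembly, probabilistic part
-/

set_option autoImplicit false

open MeasureTheory ProbabilityTheory Set Filter Topology
open scoped NNReal ENNReal

namespace Pool.Agent.Y782.SA

/-- All the inputs. -/
structure Inp : Prop where
  base : S_BASE
  step : S_STEP
  lb : S_LB
  eig : S_EIG
  lcont : S_LCONT
  disc : S_DISC
  bml : S_BML
  dconv : S_DCONV
  fin : S_FIN
  gal : S_GAL
  cnt : S_CNT
  cut : S_CUT
  lim : S_LIM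
  sum : S_SUM
  tail : S_TAIL
  rig : S_RIG
  log : S_LOG
  bc : S_BC

theorem hf_cont {M : ℝ} (hM : 1 ≤ M) : Continuous (hf M) := by
  unfold hf
  refine continuous_const.mul (Continuous.log ?_ ?_)
  · refine Continuous.div (by fun_prop) (by fun_prop) fun x => by positivity
  · intro x
    positivity

theorem MM_ge (j : ℕ) : 1 ≤ MM j := one_le_pow₀ (by norm_num)

theorem LL_pos (j : ℕ) : 0 < LL j := by unfold LL; positivity

section main

variable {E : Type} [NormedAddCommGroup E] [InnerProductSpace ℝ E] [FiniteDimensional ℝ E]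
variable {ι : Type} [Fintype ι] {A : ι → E →L[ℝ] E} {κ : ℝ} {S : E →L[ℝ] E}
variable {Ω : Type} [MeasurableSpace Ω] {P : Measure Ω} [IsProbabilityMeasure P]
variable {b : ι → ℝ≥0 → Ω → ℝ}

/-- The good event. -/
def Gd (A : ι → E →L[ℝ] E) (κ : ℝ) (S : E →L[ℝ] E) (b : ι → ℝ≥0 → ℝ) : Prop :=
  (∀ α, Continuous (b α)) ∧ (∀ α, b α 0 = 0) ∧ ∃ C : ℝ, 0 ≤ C ∧ LB κ C S (path A b)

theorem rough_of_rough2 {C : ℝ} {W : ℝ → E →L[ℝ] E} (h : Rough2 κ C W) : Rough κ C W := by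
  intro j x hx
  have := h j x hx
  have h1 : 0 ≤ ‖W x - W j‖ := norm_nonneg _
  nlinarith [sq_nonneg ‖W x - W j‖]

theorem good (H : Inp) (hκ : 0 < κ) (hA : ∀ α, Sym (A α))
    (hb : ∀ α, IsBrownianReal (b α) P) (hind : iIndepFun (fun α ω t => b α t ω) P) :
    ∀ᵐ ω ∂P, Gd A κ S (fun α t => b α t ω) := by
  have h1 := H.fin E ι A κ hκ hA Ω P b hb hind
  have h2 : ∀ᵐ ω ∂P, ∀ α, Continuous (fun t => b α t ω) := ae_all_iff.2 fun α => (hb α).cont
  have h3 : ∀ᵐ ω ∂P, ∀ α, b α 0 ω = 0 :=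
    ae_all_iff.2 fun α => (hb α).toIsPreBrownianReal.eval_zero_ae_eq_zero
  filter_upwards [h1, h2, h3] with ω h1 h2 h3
  obtain ⟨C, hC, hR⟩ := h1
  refine ⟨h2, h3, C + 4 * ‖S‖ ^ 2, by positivity, ?_⟩
  exact H.lb E κ C S _ hκ (H.dconv E ι A κ S _ hA h2 h3).1 (rough_of_rough2 hR)

theorem Gd.goodW (H : Inp) (hA : ∀ α, Sym (A α)) {b : ι → ℝ≥0 → ℝ} (h : Gd A κ S b) :
    GoodW (path A b) := (H.dconv E ι A κ S b hA h.1 h.2.1).1

/-- convergence of the matrices -/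
theorem matQ_lim (H : Inp) (hA : ∀ α, Sym (A α)) {b : ι → ℝ≥0 → ℝ} (h : Gd A κ S b) {m : ℕ}
    (v : Fin m → ℝ → E) (L : ℕ) (hv : ∀ i, v i ∈ tstL E L) :
    Tendsto (fun D : ℕ => matQ κ S (stepW A (D + 1) (L * (D + 1))
      (incr b (D + 1) (L * (D + 1)))) v) atTop (𝓝 (matQ κ S (path A b) v)) := by
  refine (tendsto_pi_nhds (f := fun D : ℕ => (matQ κ S (stepW A (D + 1) (L * (D + 1))
      (incr b (D + 1) (L * (D + 1)))) v : Fin m → Fin m → ℝ))).2 fun i => ?_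
  refine tendsto_pi_nhds.2 fun j => ?_
  exact (H.dconv E ι A κ S b hA h.1 h.2.1).2.2 L (v i) (v j) (hv i) (hv j)

theorem lam_lim (H : Inp) (hA : ∀ α, Sym (A α)) {b : ι → ℝ≥0 → ℝ} (h : Gd A κ S b) {m : ℕ}
    (v : Fin m → ℝ → E) (L : ℕ) (hv : ∀ i, v i ∈ tstL E L) (hG : (matG v).PosDef) {k : ℕ}
    (hk : k < m) :
    Tendsto (fun D : ℕ => lam ⊤ (qf (matQ κ S (stepW A (D + 1) (L * (D + 1))
      (incr b (D + 1) (L * (D + 1)))) v)) (qf (matG v)) k) atTop
      (𝓝 (lam ⊤ (qf (matQ κ S (path A b) v)) (qf (matG v)) k)) :=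
  ((H.lcont m (matG v) k hG hk).tendsto _).comp (matQ_lim H hA h v L hv)

theorem symQ (H : Inp) (hS : Sym S) {W : ℝ → E →L[ℝ] E} (hW : GoodW W) {m : ℕ}
    {v : Fin m → ℝ → E} (hv : ∀ i, IsTest (v i)) : (matQ κ S W v).IsSymm :=
  (H.base E κ S W hS hW m v hv).1

theorem posG (H : Inp) {m : ℕ} {v : Fin m → ℝ → E} (hv : Sys v) : (matG v).PosDef := by
  have h0 : GoodW (fun _ : ℝ => (0 : E →L[ℝ] E)) :=
    ⟨stronglyMeasurable_const, fun L => ⟨0, fun x _ => by simp⟩, fun x u v => by simp, rfl⟩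
  exact ((H.base E 0 0 (fun _ => 0) (fun u v => by simp) h0 m v hv.test).2.2.2.2 hv).1

theorem Tm_lim (H : Inp) (hS : Sym S) (hA : ∀ α, Sym (A α)) {b : ι → ℝ≥0 → ℝ} (h : Gd A κ S b)
    {m : ℕ} (v : Fin m → ℝ → E) (L : ℕ) (hv : ∀ i, v i ∈ tstL E L) (hs : Sys v) {M : ℝ}
    (hM : 1 ≤ M) :
    Tendsto (fun D : ℕ => Tm M (matQ κ S (stepW A (D + 1) (L * (D + 1))
      (incr b (D + 1) (L * (D + 1)))) v) (matG v)) atTop
      (𝓝 (Tm M (matQ κ S (path A b) v) (matG v))) := by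
  have hG := posG H hs
  rw [H.eig m _ _ M (symQ H hS (h.goodW H hA) hs.test) hG hM]
  have : ∀ D : ℕ, Tm M (matQ κ S (stepW A (D + 1) (L * (D + 1))
      (incr b (D + 1) (L * (D + 1)))) v) (matG v) = ∑ k ∈ Finset.range m, hf M (lam ⊤ (qf (matQ κ S
        (stepW A (D + 1) (L * (D + 1)) (incr b (D + 1) (L * (D + 1)))) v)) (qf (matG v)) k) := by
    intro D
    exact H.eig m _ _ M (symQ H hS ((H.step E).2 ι A (D + 1) (L * (D + 1)) _ hA
      (by omega)).1 hs.test) hG hM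
  simp_rw [this]
  refine tendsto_finsetSum _ fun k hk => ?_
  exact ((hf_cont hM).tendsto _).comp (lam_lim H hA h v L hv hG (Finset.mem_range.1 hk))

theorem cont_matQ (H : Inp) (hA : ∀ α, Sym (A α)) {D n : ℕ} (hD : 1 ≤ D) {m : ℕ}
    {v : Fin m → ℝ → E} (hv : ∀ i, IsTest (v i)) :
    Continuous (fun ξ : Fin n × ι → ℝ => matQ κ S (stepW A D n ξ) v) := by
  refine continuous_matrix fun i j => ?_
  have : ∀ ξ : Fin n × ι → ℝ, matQ κ S (stepW A D n ξ) v i j = _ := fun ξ =>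
    ((H.step E).2 ι A D n ξ hA hD).2 κ S (v i) (v j) (hv i) (hv j)
  simp_rw [this]
  fun_prop

/-- the law of the increments transports lintegrals -/
theorem aem_incr (H : Inp) (hb : ∀ α, IsBrownianReal (b α) P)
    (hind : iIndepFun (fun α ω t => b α t ω) P) (D n : ℕ) (hD : 1 ≤ D) :
    HasLaw (fun ω => incr (fun α t => b α t ω) D n)
      (Measure.pi fun _ : Fin n × ι => gaussianReal 0 1) P :=
  H.bml Ω P ι b (fun α => (hb α).toIsPreBrownianReal) hind D n hD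

/-- measurability of the min-max values of a finite system -/
theorem aem_lam (H : Inp) (hκ : 0 < κ) (hA : ∀ α, Sym (A α))
    (hb : ∀ α, IsBrownianReal (b α) P) (hind : iIndepFun (fun α ω t => b α t ω) P)
    {m : ℕ} (v : Fin m → ℝ → E) (L : ℕ) (hv : ∀ i, v i ∈ tstL E L) (hs : Sys v) {k : ℕ}
    (hk : k < m) :
    AEMeasurable (fun ω => lam ⊤ (qf (matQ κ S (path A fun α t => b α t ω) v)) (qf (matG v)) k)
      P := by
  have hG := posG H hs
  refine aemeasurable_of_tendsto_metrizable_ae (u := atTop)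
    (f := fun (D : ℕ) ω => lam ⊤ (qf (matQ κ S (stepW A (D + 1) (L * (D + 1))
      (incr (fun α t => b α t ω) (D + 1) (L * (D + 1)))) v)) (qf (matG v)) k) ?_ ?_
  · intro D
    have h1 : Continuous (fun ξ : Fin (L * (D + 1)) × ι → ℝ => lam ⊤ (qf (matQ κ S (stepW A (D + 1)
        (L * (D + 1)) ξ) v)) (qf (matG v)) k) :=
      (H.lcont m (matG v) k hG hk).comp (cont_matQ H hA (by omega) hs.test)
    exact h1.measurable.comp_aemeasurable (aem_incr H hb hind (D + 1) (L * (D + 1))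
      (by omega)).aemeasurable
  · filter_upwards [good (S := S) H hκ hA hb hind] with ω hω
    exact lam_lim H hA hω v L hv hG hk

/-- the variance bound for a finite system -/
theorem var_fin (H : Inp) (hκ : 0 < κ) (hS : Sym S) (hA : ∀ α, Sym (A α))
    (hb : ∀ α, IsBrownianReal (b α) P) (hind : iIndepFun (fun α ω t => b α t ω) P) {K : ℝ}
    (hK0 : 0 ≤ K)
    (hK : ∀ (D n m : ℕ) (v : Fin m → ℝ → E) (M : ℝ), 1 ≤ D → Sys v → 1 ≤ M →
      Measurable (fun ξ : Fin n × ι → ℝ => Tm M (matQ κ S (stepW A D n ξ) v) (matG v)) ∧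
      ∃ c : ℝ, ∫⁻ ξ, ENNReal.ofReal ((Tm M (matQ κ S (stepW A D n ξ) v) (matG v) - c) ^ 2)
        ∂(Measure.pi fun _ : Fin n × ι => gaussianReal 0 1) ≤
        ENNReal.ofReal (K * ∑ k ∈ Finset.range n, 1 / (κ * (k + 1) + D)))
    {m : ℕ} (v : Fin m → ℝ → E) (L : ℕ) (hv : ∀ i, v i ∈ tstL E L) (hs : Sys v) {M : ℝ}
    (hM : 1 ≤ M) :
    AEMeasurable (fun ω => Tm M (matQ κ S (path A fun α t => b α t ω) v) (matG v)) P ∧
    ∃ c : ℝ, ∫⁻ ω, ENNReal.ofReal
      ((Tm M (matQ κ S (path A fun α t => b α t ω) v) (matG v) - c) ^ 2) ∂P ≤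
      ENNReal.ofReal (4 * (K * (Real.log (1 + κ * L) / κ))) := by
  have hlog : 0 ≤ Real.log (1 + κ * L) := Real.log_nonneg (by
    have : 0 ≤ κ * L := by positivity
    linarith)
  refine H.lim Ω P (fun (D : ℕ) ω => Tm M (matQ κ S (stepW A (D + 1) (L * (D + 1))
      (incr (fun α t => b α t ω) (D + 1) (L * (D + 1)))) v) (matG v)) _ _ (by positivity) ?_ ?_ ?_
  · intro D
    exact (hK (D + 1) (L * (D + 1)) m v M (by omega) hs hM).1.comp_aemeasurable
      (aem_incr H hb hind (D + 1) (L * (D + 1)) (by omega)).aemeasurable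
  · filter_upwards [good (S := S) H hκ hA hb hind] with ω hω
    exact Tm_lim H hS hA hω v L hv hs hM
  · intro D
    obtain ⟨hm, c, hc⟩ := hK (D + 1) (L * (D + 1)) m v M (by omega) hs hM
    refine ⟨c, ?_⟩
    have hl := aem_incr H hb hind (D + 1) (L * (D + 1)) (by omega)
    have h1 := hl.lintegral_comp (f := fun ξ => ENNReal.ofReal
      ((Tm M (matQ κ S (stepW A (D + 1) (L * (D + 1)) ξ) v) (matG v) - c) ^ 2))
      (by
        refine Measurable.aemeasurable ?_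
        exact ENNReal.measurable_ofReal.comp ((hm.sub_const c).pow_const 2))
    rw [h1]
    refine hc.trans (ENNReal.ofReal_le_ofReal ?_)
    refine mul_le_mul_of_nonneg_left ?_ hK0
    have := H.log κ (D + 1) L hκ (by omega)
    exact_mod_cast this

end main

end Pool.Agent.Y782.SA
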