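import Pool.Agent.Y782.SA.Asm2

/-!
# Assembly: the main theorem for general matrix noise
-/

set_option autoImplicit false

open MeasureTheory ProbabilityTheory Set Filter Topology
open scoped NNReal ENNReal

namespace Pool.Agent.Y782.SA

section main

variable {E : Type} [NormedAddCommGroup E] [InnerProductSpace ℝ E] [FiniteDimensional ℝ E]
  [Nontrivial E]
variable {ι : Type} [Fintype ι] {A : ι → E →L[ℝ] E} {κ : ℝ} {S : E →L[ℝ] E}
variable {Ω : Type} [MeasurableSpace Ω] {P : Measure Ω} [IsProbabilityMeasure P]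
variable {b : ι → ℝ≥0 → Ω → ℝ}

theorem neL (H : Inp) (hκ : 0 < κ) (hS : Sym S) {W : ℝ → E →L[ℝ] E} {C : ℝ} (hW : GoodW W)
    (hLB : LB κ C S W) {L : ℝ} (hL : 0 < L) (k : ℕ) :
    (mmset (tstL E L) (form κ S W) nsq k).Nonempty := by
  obtain ⟨r, v, -, -, -, hg⟩ := H.gal E L hL
  exact (hg κ S W C hκ hS hW hLB k).1

theorem neT (H : Inp) (hκ : 0 < κ) (hS : Sym S) {W : ℝ → E →L[ℝ] E} {C : ℝ} (hW : GoodW W)
    (hLB : LB κ C S W) (k : ℕ) :
    (mmset (tst E) (form κ S W) nsq k).Nonempty :=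
  (neL H hκ hS hW hLB one_pos k).mono (mmset_mono (tstL_le 1))

theorem stat_L (H : Inp) (hκ : 0 < κ) (hS : Sym S) (hA : ∀ α, Sym (A α))
    (hb : ∀ α, IsBrownianReal (b α) P) (hind : iIndepFun (fun α ω t => b α t ω) P) {K : ℝ}
    (hK0 : 0 ≤ K)
    (hK : ∀ (D n m : ℕ) (v : Fin m → ℝ → E) (M : ℝ), 1 ≤ D → Sys v → 1 ≤ M →
      Measurable (fun ξ : Fin n × ι → ℝ => Tm M (matQ κ S (stepW A D n ξ) v) (matG v)) ∧
      ∃ c : ℝ, ∫⁻ ξ, ENNReal.ofReal ((Tm M (matQ κ S (stepW A D n ξ) v) (matG v) - c) ^ 2)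
        ∂(Measure.pi fun _ : Fin n × ι => gaussianReal 0 1) ≤
        ENNReal.ofReal (K * ∑ k ∈ Finset.range n, 1 / (κ * (k + 1) + D)))
    (L : ℕ) (hL : 0 < L) {M : ℝ} (hM : 1 ≤ M) :
    (∀ k, AEMeasurable (fun ω => lam (tstL E L) (form κ S (path A fun α t => b α t ω)) nsq k) P) ∧
    AEMeasurable (fun ω => ∑' k, hf M (lam (tstL E L)
      (form κ S (path A fun α t => b α t ω)) nsq k)) P ∧
    ∃ c : ℝ, ∫⁻ ω, ENNReal.ofReal ((∑' k, hf M (lam (tstL E L)
      (form κ S (path A fun α t => b α t ω)) nsq k) - c) ^ 2) ∂P ≤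
      ENNReal.ofReal (4 * (4 * (K * (Real.log (1 + κ * L) / κ)))) := by
  obtain ⟨r, v, hsys, hmem, hr, hg⟩ := H.gal E L (by exact_mod_cast hL)
  have hgood := good (S := S) H hκ hA hb hind
  have hlog : 0 ≤ Real.log (1 + κ * L) := Real.log_nonneg (by
    have : 0 ≤ κ * L := by positivity
    linarith)
  -- comparison of the span and the matrix
  have hspan : ∀ ω, Gd A κ S (fun α t => b α t ω) → ∀ p k,
      lam (Submodule.span ℝ (Set.range (v p))) (form κ S (path A fun α t => b α t ω)) nsq k =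
      lam ⊤ (qf (matQ κ S (path A fun α t => b α t ω) (v p))) (qf (matG (v p))) k :=
    fun ω hω p k => ((H.base E κ S _ hS (hω.goodW H hA) (r p) (v p) (hsys p).test).2.2.2.2
      (hsys p)).2 k
  refine ⟨fun k => ?_, ?_⟩
  · refine aemeasurable_of_tendsto_metrizable_ae (u := atTop)
      (f := fun (p : ℕ) ω => if k < r p then lam ⊤ (qf (matQ κ S (path A fun α t => b α t ω) (v p)))
        (qf (matG (v p))) k else 0) ?_ ?_
    · intro p
      by_cases hk : k < r p
      · simp only [hk, if_true]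
        exact aem_lam H hκ hA hb hind (v p) L (hmem p) (hsys p) hk
      · simp only [hk, if_false]
        exact aemeasurable_const
    · filter_upwards [hgood] with ω hω
      obtain ⟨C, hC, hLB⟩ := hω.2.2
      refine Tendsto.congr' ?_ (hg κ S _ C hκ hS (hω.goodW H hA) hLB k).2.2
      filter_upwards [hr.eventually_gt_atTop k] with p hp
      simp only [hp, if_true]
      exact hspan ω hω p k
  · refine H.lim Ω P (fun p ω => Tm M (matQ κ S (path A fun α t => b α t ω) (v p)) (matG (v p)))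
      _ _ (by positivity) ?_ ?_ ?_
    · intro p
      exact (var_fin H hκ hS hA hb hind hK0 hK (v p) L (hmem p) (hsys p) hM).1
    · filter_upwards [hgood] with ω hω
      obtain ⟨C, hC, hLB⟩ := hω.2.2
      have hW := hω.goodW H hA
      have h1 := (H.sum M (gr E κ) (C + 1)
        (fun k => lam (tstL E L) (form κ S (path A fun α t => b α t ω)) nsq k) r
        (fun p k => lam (Submodule.span ℝ (Set.range (v p)))
          (form κ S (path A fun α t => b α t ω)) nsq k) hM (gr_pos hκ)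
        (fun k => growth H.cnt hκ hC hW hLB (tstL_le _)
          (neL H hκ hS hW hLB (by exact_mod_cast hL) k))).2 hr
        (fun p k hk => growth H.cnt hκ hC hW hLB
          ((Submodule.span_le.2 (by rintro _ ⟨i, rfl⟩; exact hmem p i)).trans (tstL_le (L : ℝ)))
          ((hg κ S _ C hκ hS hW hLB k).2.1 p hk))
        (fun k => (hg κ S _ C hκ hS hW hLB k).2.2)
      refine h1.congr fun p => ?_
      rw [H.eig (r p) _ _ M (symQ H hS hW (hsys p).test) (posG H (hsys p)) hM]
      refine Finset.sum_congr rfl fun k _ => ?_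
      rw [hspan ω hω p k]
    · intro p
      exact (var_fin H hκ hS hA hb hind hK0 hK (v p) L (hmem p) (hsys p) hM).2

end main

/-- the bound for the normalised variances -/
theorem var_bd {κ K : ℝ} (hκ : 0 < κ) (hK : 0 ≤ K) (j : ℕ) (hj : 1 ≤ j) :
    4 * (4 * (K * (Real.log (1 + κ * LL j) / κ))) / ((j : ℝ) ^ 2 * Real.log 2) ^ 2 ≤
      (16 * K * (κ + 40) / κ / Real.log 2 ^ 2) * (1 / (j : ℝ) ^ 2) := by
  have hj' : (1 : ℝ) ≤ j := by exact_mod_cast hj
  have hl2 : 0 < Real.log 2 := Real.log_pos (by norm_num)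
  have hl1 : Real.log 2 ≤ 1 := by
    have := Real.log_two_lt_d9; linarith
  have hLL : (LL j : ℝ) = 2 ^ (40 * j ^ 2) := by unfold LL; push_cast; rfl
  have hLL1 : (1 : ℝ) ≤ LL j := by rw [hLL]; exact one_le_pow₀ (by norm_num)
  have h1 : Real.log (1 + κ * LL j) ≤ (κ + 40) * (j : ℝ) ^ 2 := by
    have e1 : 1 + κ * LL j ≤ (1 + κ) * LL j := by nlinarith
    have e2 : Real.log (1 + κ * LL j) ≤ Real.log ((1 + κ) * LL j) :=
      Real.log_le_log (by positivity) e1
    rw [Real.log_mul (by positivity) (by positivity), hLL, Real.log_pow] at e2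
    have e3 : Real.log (1 + κ) ≤ κ := by
      have := Real.log_le_sub_one_of_pos (show 0 < 1 + κ by positivity)
      linarith
    have e4 : ((40 * j ^ 2 : ℕ) : ℝ) * Real.log 2 ≤ 40 * (j : ℝ) ^ 2 := by
      push_cast
      have : 0 ≤ 40 * (j : ℝ) ^ 2 := by positivity
      nlinarith
    have e5 : (1 : ℝ) ≤ (j : ℝ) ^ 2 := one_le_pow₀ hj'
    rw [hLL]
    nlinarith
  rw [div_le_iff₀ (by positivity)]
  have h2 : (16 * K * (κ + 40) / κ / Real.log 2 ^ 2) * (1 / (j : ℝ) ^ 2) *
      ((j : ℝ) ^ 2 * Real.log 2) ^ 2 = 16 * K * ((κ + 40) * (j : ℝ) ^ 2) / κ := by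
    field_simp
  rw [h2]
  have h3 : 4 * (4 * (K * (Real.log (1 + κ * LL j) / κ))) = 16 * K * Real.log (1 + κ * LL j) / κ := by
    ring
  rw [h3]
  gcongr

/-- The main theorem for general matrix noise. -/
def S_MAIN : Prop := ∀ (E : Type) [NormedAddCommGroup E] [InnerProductSpace ℝ E]
  [FiniteDimensional ℝ E] [Nontrivial E] (ι : Type) [Fintype ι] (A : ι → E →L[ℝ] E) (κ : ℝ)
  (S : E →L[ℝ] E), 0 < κ → Sym S → (∀ α, Sym (A α)) →
  ∀ (Ω : Type) [MeasurableSpace Ω] (P : Measure Ω) [IsProbabilityMeasure P]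
  (b : ι → ℝ≥0 → Ω → ℝ), (∀ α, IsBrownianReal (b α) P) → iIndepFun (fun α ω t => b α t ω) P →
  (∀ k, AEMeasurable (fun ω => lam (tst E) (form κ S (path A fun α t => b α t ω)) nsq k) P) ∧
  ∃ g : Measure ℝ → ℝ≥0∞, Measurable g ∧ ∀ᵐ ω ∂P,
    GoodW (path A fun α t => b α t ω) ∧ (∃ C, 0 ≤ C ∧ LB κ C S (path A fun α t => b α t ω)) ∧
    (∀ k, (mmset (tst E) (form κ S (path A fun α t => b α t ω)) nsq k).Nonempty) ∧
    (∃ α c₁ : ℝ, 0 < α ∧ ∀ k : ℕ, α * ((k : ℝ) + 1) ^ (2 / 3 : ℝ) - c₁ ≤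
      lam (tst E) (form κ S (path A fun α t => b α t ω)) nsq k) ∧
    ∀ A' : Set ℝ, MeasurableSet A' → Bornology.IsBounded A' →
      (Measure.sum fun k => Measure.dirac
        (lam (tst E) (form κ S (path A fun α t => b α t ω)) nsq k)) A' =
      g ((Measure.sum fun k => Measure.dirac
        (lam (tst E) (form κ S (path A fun α t => b α t ω)) nsq k)).restrict A'ᶜ)

theorem main (H : Inp) : S_MAIN := by
  intro E _ _ _ _ ι _ A κ S hκ hS hA Ω _ P _ b hb hind
  obtain ⟨K, hK0, hK⟩ := H.disc E ι A κ S hκ hS hA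
  obtain ⟨c₀, hc₀, hcut⟩ := H.cut
  have hgood := good (S := S) H hκ hA hb hind
  have hst := fun (j : ℕ) => stat_L (P := P) (b := b) H hκ hS hA hb hind hK0
    (fun D n => hK D n) (LL j) (LL_pos j) (MM_ge j)
  choose c hc using fun j => (hst j).2.2
  have hl2 : 0 < Real.log 2 := Real.log_pos (by norm_num)
  -- the cut-off estimate on the good event
  have hcutω : ∀ ω, Gd A κ S (fun α t => b α t ω) → ∃ c₂ : ℝ, 0 ≤ c₂ ∧ ∀ j k,
      c₂ * (1 + |lam (tst E) (form κ S (path A fun α t => b α t ω)) nsq k|) ≤ LL j →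
      lam (tstL E (LL j)) (form κ S (path A fun α t => b α t ω)) nsq k ≤
        lam (tst E) (form κ S (path A fun α t => b α t ω)) nsq k +
        c₂ * (1 + |lam (tst E) (form κ S (path A fun α t => b α t ω)) nsq k|) ^ 2 / LL j := by
    intro ω hω
    obtain ⟨C, hC, hLB⟩ := hω.2.2
    have hW := hω.goodW H hA
    refine ⟨2 + 8 * (2 + C) * (1 + c₀ + C) / κ, by positivity, fun j k hjk => ?_⟩
    exact cut H.cnt hc₀ (fun k s L => hcut E κ C S _ hκ hC hW hLB k s L) hκ hC hW hLB
      (neT H hκ hS hW hLB k) hjk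
  have hmono : ∀ ω, Gd A κ S (fun α t => b α t ω) → ∀ j k,
      lam (tst E) (form κ S (path A fun α t => b α t ω)) nsq k ≤
      lam (tstL E (LL j)) (form κ S (path A fun α t => b α t ω)) nsq k := by
    intro ω hω j k
    obtain ⟨C, hC, hLB⟩ := hω.2.2
    have hW := hω.goodW H hA
    exact lam_mono H.cnt hκ hC hW hLB (neL H hκ hS hW hLB (by exact_mod_cast LL_pos j) k)
  have hLLtop : Tendsto (fun j => (LL j : ℝ)) atTop atTop := by
    refine tendsto_atTop_mono (f := fun j : ℕ => (j : ℝ)) (fun j => ?_) tendsto_natCast_atTop_atTop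
    have h1 : j ≤ 40 * j ^ 2 := by nlinarith
    have h2 : 40 * j ^ 2 < 2 ^ (40 * j ^ 2) := Nat.lt_two_pow_self
    have h3 : j ≤ LL j := by unfold LL; omega
    exact_mod_cast h3
  refine ⟨fun k => ?_, ?_⟩
  · -- measurability
    refine aemeasurable_of_tendsto_metrizable_ae (u := atTop)
      (f := fun (j : ℕ) ω => lam (tstL E (LL j)) (form κ S (path A fun α t => b α t ω)) nsq k)
      (fun j => (hst j).1 k) ?_
    filter_upwards [hgood] with ω hω
    obtain ⟨c₂, hc₂, h⟩ := hcutω ω hω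
    set a := lam (tst E) (form κ S (path A fun α t => b α t ω)) nsq k with ha
    have h1 : Tendsto (fun j => a + c₂ * (1 + |a|) ^ 2 / LL j) atTop (𝓝 (a + 0)) :=
      tendsto_const_nhds.add (Tendsto.div_atTop tendsto_const_nhds hLLtop)
    rw [add_zero] at h1
    refine tendsto_of_tendsto_of_tendsto_of_le_of_le' tendsto_const_nhds h1
      (Eventually.of_forall fun j => hmono ω hω j k) ?_
    filter_upwards [hLLtop.eventually_ge_atTop (c₂ * (1 + |a|))] with j hj
    exact h j k hj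
  · -- rigidity
    set c' : ℕ → ℝ := fun j => c j / ((j : ℝ) ^ 2 * Real.log 2) with hc'
    obtain ⟨g, hg, hrig⟩ := H.rig c'
    refine ⟨g, hg, ?_⟩
    have hbc : ∀ᵐ ω ∂P, Tendsto (fun j => TT j (fun k => lam (tstL E (LL j))
        (form κ S (path A fun α t => b α t ω)) nsq k) - c' j) atTop (𝓝 0) := by
      refine H.bc Ω P (fun j ω => TT j (fun k => lam (tstL E (LL j))
        (form κ S (path A fun α t => b α t ω)) nsq k) - c' j)
        (fun j => (16 * K * (κ + 40) / κ / Real.log 2 ^ 2) * (1 / (j : ℝ) ^ 2)) ?_ ?_ ?_ ?_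
      · intro j; positivity
      · exact (Real.summable_one_div_nat_pow.2 (by norm_num)).mul_left _
      · intro j
        exact ((hst j).2.1.div_const _).sub_const _
      · intro j
        have e1 : ∀ ω, ENNReal.ofReal ((TT j (fun k => lam (tstL E (LL j))
            (form κ S (path A fun α t => b α t ω)) nsq k) - c' j) ^ 2) =
            ENNReal.ofReal (1 / ((j : ℝ) ^ 2 * Real.log 2) ^ 2) *
            ENNReal.ofReal ((∑' k, hf (MM j) (lam (tstL E (LL j))
              (form κ S (path A fun α t => b α t ω)) nsq k) - c j) ^ 2) := by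
          intro ω
          rw [← ENNReal.ofReal_mul (by positivity)]
          congr 1
          simp only [TT, hc']
          ring
        simp_rw [e1]
        rw [lintegral_const_mul' _ _ ENNReal.ofReal_ne_top]
        rcases Nat.eq_zero_or_pos j with hj | hj
        · subst hj
          simp
        · refine (mul_le_mul_right (hc j) _).trans ?_
          rw [← ENNReal.ofReal_mul (by positivity)]
          refine ENNReal.ofReal_le_ofReal ?_
          have := var_bd hκ hK0 j hj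
          rw [one_div, inv_mul_eq_div]
          exact this
    filter_upwards [hgood, hbc] with ω hω hT
    obtain ⟨C, hC, hLB⟩ := hω.2.2
    have hW := hω.goodW H hA
    obtain ⟨c₂, hc₂, h⟩ := hcutω ω hω
    have hgrow : ∀ k : ℕ, gr E κ * ((k : ℝ) + 1) ^ (2 / 3 : ℝ) - (C + 1) ≤
        lam (tst E) (form κ S (path A fun α t => b α t ω)) nsq k :=
      fun k => growth H.cnt hκ hC hW hLB le_rfl (neT H hκ hS hW hLB k)
    refine ⟨hW, ⟨C, hC, hLB⟩, fun k => neT H hκ hS hW hLB k, ⟨gr E κ, C + 1, gr_pos hκ, hgrow⟩, ?_⟩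
    have hTT : Tendsto (fun j => TT j (fun k => lam (tst E)
        (form κ S (path A fun α t => b α t ω)) nsq k) - c' j) atTop (𝓝 0) := by
      have h1 := H.tail (gr E κ) (C + 1) c₂ (fun k => lam (tst E)
        (form κ S (path A fun α t => b α t ω)) nsq k) (fun j k => lam (tstL E (LL j))
        (form κ S (path A fun α t => b α t ω)) nsq k) (gr_pos hκ) (by positivity) hc₂ hgrow
        (hmono ω hω) h
      have h2 := h1.add hT
      simp only [add_zero] at h2
      refine h2.congr fun j => ?_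
      ring
    intro A' hA' hAb
    exact hrig (gr E κ) (C + 1) _ (gr_pos hκ) hgrow hTT A' hA' hAb

end Pool.Agent.Y782.SA
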