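import Mathlib

/-!
# Stochastic Airy operators with matrix noise: definitions

`E` is a finite dimensional real inner product space, `W : ℝ → (E →L[ℝ] E)` a path of symmetric
operators (the noise path), `κ > 0`, `S` a symmetric operator. The quadratic form of the operator
`-d²/dx² + W' + κ x` on `[0, ∞)` with the boundary condition `f' 0 = S (f 0)` is
`∫ |f'|² + κ x |f|² + ⟨S f(0), f(0)⟩ - 2 ∫ ⟨f', W f⟩`.
-/

set_option autoImplicit false

open MeasureTheory ProbabilityTheory Set Filter Topology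
open scoped NNReal ENNReal

namespace Pool.Agent.Y782.SA

section form

variable {E : Type} [NormedAddCommGroup E] [InnerProductSpace ℝ E]

/-- Test functions: `C¹` functions with compact support (only their restriction to `[0, ∞)`
matters). -/
def IsTest (f : ℝ → E) : Prop := ContDiff ℝ 1 f ∧ HasCompactSupport f

/-- `∫_0^∞ |f|²` -/
noncomputable def nsq (f : ℝ → E) : ℝ := ∫ x in Ioi (0 : ℝ), ‖f x‖ ^ 2

/-- `∫_0^∞ |f'|²` -/
noncomputable def dsq (f : ℝ → E) : ℝ := ∫ x in Ioi (0 : ℝ), ‖deriv f x‖ ^ 2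

/-- `∫_0^∞ x |f|²` -/
noncomputable def xsq (f : ℝ → E) : ℝ := ∫ x in Ioi (0 : ℝ), x * ‖f x‖ ^ 2

/-- The quadratic form of `-d²/dx² + W' + κ x` with boundary condition `f' 0 = S (f 0)`. -/
noncomputable def form (κ : ℝ) (S : E →L[ℝ] E) (W : ℝ → E →L[ℝ] E) (f : ℝ → E) : ℝ :=
  dsq f + κ * xsq f + inner ℝ (S (f 0)) (f 0)
    - 2 * ∫ x in Ioi (0 : ℝ), inner ℝ (deriv f x) (W x (f x))

/-- `∫_0^∞ ⟨f, g⟩` -/
noncomputable def gram (f g : ℝ → E) : ℝ := ∫ x in Ioi (0 : ℝ), inner ℝ (f x) (g x)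

/-- The bilinear form belonging to `form`. -/
noncomputable def bform (κ : ℝ) (S : E →L[ℝ] E) (W : ℝ → E →L[ℝ] E) (f g : ℝ → E) : ℝ :=
  (∫ x in Ioi (0 : ℝ), inner ℝ (deriv f x) (deriv g x))
    + κ * (∫ x in Ioi (0 : ℝ), x * inner ℝ (f x) (g x)) + inner ℝ (S (f 0)) (g 0)
    - ∫ x in Ioi (0 : ℝ), (inner ℝ (deriv f x) (W x (g x)) + inner ℝ (deriv g x) (W x (f x)))

/-- A symmetric operator. -/
def Sym (A : E →L[ℝ] E) : Prop := ∀ u v, inner ℝ (A u) v = inner ℝ u (A v)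

/-- Admissible noise paths: measurable, locally bounded, symmetric, starting at `0`. -/
structure GoodW (W : ℝ → E →L[ℝ] E) : Prop where
  meas : StronglyMeasurable W
  bdd : ∀ L : ℝ, ∃ B : ℝ, ∀ x ∈ Icc 0 L, ‖W x‖ ≤ B
  sym : ∀ x, Sym (W x)
  zero : W 0 = 0

/-- Roughness constant: the oscillation of `W` over `[j, j+1]` is at most of order `√(C + κ j)`. -/
def Rough (κ C : ℝ) (W : ℝ → E →L[ℝ] E) : Prop :=
  ∀ j : ℕ, ∀ x ∈ Icc (j : ℝ) (j + 1), ‖W x - W j‖ + 16 * ‖W x - W j‖ ^ 2 ≤ C + κ * j / 2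

/-- The same with more generous constants. -/
def Rough2 (κ C : ℝ) (W : ℝ → E →L[ℝ] E) : Prop :=
  ∀ j : ℕ, ∀ x ∈ Icc (j : ℝ) (j + 1), 2 * ‖W x - W j‖ + 32 * ‖W x - W j‖ ^ 2 ≤ C + κ * j / 2

/-- The form is bounded below by half of the free form minus `C` times the norm. -/
def LB (κ C : ℝ) (S : E →L[ℝ] E) (W : ℝ → E →L[ℝ] E) : Prop :=
  ∀ f : ℝ → E, IsTest f → (dsq f + κ * xsq f) / 2 - C * nsq f ≤ form κ S W f

end form

section sub

variable (E : Type) [NormedAddCommGroup E] [InnerProductSpace ℝ E]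

/-- The space of test functions. -/
def tst : Submodule ℝ (ℝ → E) where
  carrier := {f | IsTest f}
  add_mem' := fun {_ _} hf hg => ⟨hf.1.add hg.1, hf.2.add hg.2⟩
  zero_mem' := ⟨contDiff_const, HasCompactSupport.zero⟩
  smul_mem' := fun c _ hf => ⟨contDiff_const.smul hf.1, hf.2.smul_left (f := fun _ => c)⟩

/-- The space of test functions that vanish on `[L, ∞)`. -/
def tstL (L : ℝ) : Submodule ℝ (ℝ → E) where
  carrier := {f | IsTest f ∧ ∀ x, L ≤ x → f x = 0}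
  add_mem' := fun {f g} hf hg => ⟨(tst E).add_mem hf.1 hg.1, fun x hx => by
    simp [hf.2 x hx, hg.2 x hx]⟩
  zero_mem' := ⟨(tst E).zero_mem, fun x _ => rfl⟩
  smul_mem' := fun c f hf => ⟨(tst E).smul_mem c hf.1, fun x hx => by simp [hf.2 x hx]⟩

end sub

section minmax

variable {X : Type} [AddCommGroup X] [Module ℝ X]

/-- The numbers `s` for which some `(k+1)`-dimensional subspace of `U` satisfies `q ≤ s n`. -/
def mmset (U : Submodule ℝ X) (q n : X → ℝ) (k : ℕ) : Set ℝ :=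
  {s | ∃ φ : Fin (k + 1) → X, (∀ i, φ i ∈ U) ∧ ∀ c : Fin (k + 1) → ℝ, c ≠ 0 →
    0 < n (∑ i, c i • φ i) ∧ q (∑ i, c i • φ i) ≤ s * n (∑ i, c i • φ i)}

/-- Courant-Fischer: the `k`-th eigenvalue (`k = 0, 1, ...`) of the form `q` with respect to the
squared norm `n` over the core `U`. -/
noncomputable def lam (U : Submodule ℝ X) (q n : X → ℝ) (k : ℕ) : ℝ := sInf (mmset U q n k)

end minmax

section mat

/-- The quadratic form of a matrix. -/
def qf {m : ℕ} (Q : Matrix (Fin m) (Fin m) ℝ) (x : Fin m → ℝ) : ℝ := x ⬝ᵥ Q.mulVec x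

/-- `log |det (Q + i M G)| - log |det (Q + i G)|` -/
noncomputable def Tm (M : ℝ) {m : ℕ} (Q G : Matrix (Fin m) (Fin m) ℝ) : ℝ :=
  Real.log ‖(Q.map (fun x : ℝ => (x : ℂ)) + (M * Complex.I : ℂ) • G.map (fun x : ℝ => (x : ℂ))).det‖
  - Real.log ‖(Q.map (fun x : ℝ => (x : ℂ)) + Complex.I • G.map (fun x : ℝ => (x : ℂ))).det‖

/-- The slowly varying test function. -/
noncomputable def hf (M x : ℝ) : ℝ := 1 / 2 * Real.log ((x ^ 2 + M ^ 2) / (x ^ 2 + 1))

variable {E : Type} [NormedAddCommGroup E] [InnerProductSpace ℝ E]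

noncomputable def matQ (κ : ℝ) (S : E →L[ℝ] E) (W : ℝ → E →L[ℝ] E) {m : ℕ} (v : Fin m → ℝ → E) :
    Matrix (Fin m) (Fin m) ℝ := Matrix.of fun i j => bform κ S W (v i) (v j)

noncomputable def matG {m : ℕ} (v : Fin m → ℝ → E) : Matrix (Fin m) (Fin m) ℝ :=
  Matrix.of fun i j => gram (v i) (v j)

/-- An admissible finite system: test functions, positive definite Gram matrix. -/
structure Sys {m : ℕ} (v : Fin m → ℝ → E) : Prop where
  test : ∀ i, IsTest (v i)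
  pos : ∀ c : Fin m → ℝ, c ≠ 0 → 0 < nsq (∑ i, c i • v i)

/-- The step path with increments `Σ_α (ξ_{k,α} / √D) A_α` at the sites `(k + 1) / D`, `k < n`. -/
noncomputable def stepW {ι : Type} [Fintype ι] (A : ι → E →L[ℝ] E) (D n : ℕ) (ξ : Fin n × ι → ℝ)
    (x : ℝ) : E →L[ℝ] E :=
  ∑ p : Fin n × ι, if ((p.1 : ℕ) + 1 : ℝ) / D ≤ x then (ξ p / Real.sqrt D) • A p.2 else 0

/-- Rescaled Brownian increments. -/
noncomputable def incr {ι : Type} (b : ι → ℝ≥0 → ℝ) (D n : ℕ) (p : Fin n × ι) : ℝ :=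
  Real.sqrt D * (b p.2 (((p.1 : ℕ) + 1 : ℝ≥0) / D) - b p.2 (((p.1 : ℕ) : ℝ≥0) / D))

/-- The path of operators `Σ_α b_α(x) A_α`. -/
noncomputable def path {ι : Type} [Fintype ι] (A : ι → E →L[ℝ] E) (b : ι → ℝ≥0 → ℝ) (x : ℝ) :
    E →L[ℝ] E := ∑ α, (b α x.toNNReal) • A α

/-- The scales `M_j = 2^(j²)` and `L_j = 2^(40 j²)`. -/
noncomputable def MM (j : ℕ) : ℝ := 2 ^ (j ^ 2)
noncomputable def LL (j : ℕ) : ℕ := 2 ^ (40 * j ^ 2)

/-- The normalised linear statistic `1/(j² log 2) Σ_k hf (2^(j²)) (a k)`. -/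
noncomputable def TT (j : ℕ) (a : ℕ → ℝ) : ℝ := (∑' k, hf (MM j) (a k)) / (j ^ 2 * Real.log 2)

end mat

end Pool.Agent.Y782.SA
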