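import Pool.Agent.Y782.SA.Defs
import Mathlib.Analysis.Quaternion

/-!
# The multivariate stochastic Airy operator over `ℝ`, `ℂ`, `ℍ`
-/

set_option autoImplicit false

open MeasureTheory ProbabilityTheory Set Filter Topology
open scoped NNReal ENNReal Quaternion

namespace Pool.Agent.Y782.SA

section fdefs

variable (F : Type) [NormedDivisionRing F] [StarRing F] [InnerProductSpace ℝ F]

/-- The Euclidean space `F^r` (as a real inner product space). -/
abbrev VF (r : ℕ) : Type := PiLp 2 (fun _ : Fin r => F)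

/-- The facts about `F = ℝ, ℂ, ℍ` that are used. -/
structure IsRCH : Prop where
  inner_right : ∀ a b c : F, inner ℝ (a * c) (b * c) = ‖c‖ ^ 2 * inner ℝ a b
  inner_left : ∀ m a b : F, inner ℝ (m * a) b = inner ℝ a (star m * b)
  star_fix : ∀ a : F, star a = a → a = (inner ℝ 1 a : ℝ) • (1 : F)

variable {F} {r : ℕ}

/-- Multiplication of a vector by a scalar from the right. -/
noncomputable def rmul (v : VF F r) (c : F) : VF F r := WithLp.toLp 2 (fun i => v i * c)

/-- The matrix acting on column vectors (from the left), `(M v) i = ∑ j, M i j * v j`. -/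
noncomputable def mulV (M : Matrix (Fin r) (Fin r) F) (v : VF F r) : VF F r :=
  WithLp.toLp 2 (fun i => ∑ j, M i j * v j)

/-- The matrix as a real linear operator. -/
noncomputable def opM [IsScalarTower ℝ F F] [SMulCommClass ℝ F F] [FiniteDimensional ℝ F]
    (M : Matrix (Fin r) (Fin r) F) : VF F r →L[ℝ] VF F r :=
  LinearMap.toContinuousLinearMap
    { toFun := mulV M
      map_add' := fun v w => by
        ext i
        simp [mulV, mul_add, Finset.sum_add_distrib]
      map_smul' := fun c v => by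
        ext i
        simp [mulV, Finset.smul_sum, mul_smul_comm] }

/-- The numbers `s` for which the quadratic form `q` is at most `s` times the squared `L²` norm on
some `(k+1)`-dimensional (right) `F`-linear space of test functions. -/
def mmF (q : (ℝ → VF F r) → ℝ) (k : ℕ) : Set ℝ :=
  {s | ∃ φ : Fin (k + 1) → ℝ → VF F r, (∀ i, IsTest (φ i)) ∧ ∀ c : Fin (k + 1) → F, c ≠ 0 →
    0 < nsq (fun x => ∑ i, rmul (φ i x) (c i)) ∧
    q (fun x => ∑ i, rmul (φ i x) (c i)) ≤ s * nsq (fun x => ∑ i, rmul (φ i x) (c i))}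

/-- The `k`-th eigenvalue (`k = 0, 1, ...`), with multiplicity over `F`. -/
noncomputable def lamF (q : (ℝ → VF F r) → ℝ) (k : ℕ) : ℝ := sInf (mmF q k)

/-- Hermitian matrices. -/
def Herm (M : Matrix (Fin r) (Fin r) F) : Prop := ∀ i j, M j i = star (M i j)

/-- Index set of the real coordinates of a Hermitian matrix. -/
abbrev Idx (r β : ℕ) : Type := Fin r ⊕ ({p : Fin r × Fin r // p.1 < p.2} × Fin β)

/-- The normalised real coordinates of a Hermitian matrix: `√(β/2) Re B i i`, and
`√β ⟨e c, B i j⟩` for `i < j`. -/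
noncomputable def coord {β : ℕ} (e : OrthonormalBasis (Fin β) ℝ F) (B : Matrix (Fin r) (Fin r) F) :
    Idx r β → ℝ
  | Sum.inl i => Real.sqrt (β / 2) * inner ℝ 1 (B i i)
  | Sum.inr (p, c) => Real.sqrt β * inner ℝ (e c) (B p.1.1 p.1.2)

variable {Ω : Type} [MeasurableSpace Ω]

/-- Standard `β`-matrix Brownian motion: Hermitian matrices whose normalised real coordinates are
independent standard Brownian motions. -/
structure MatBM {β : ℕ} (e : OrthonormalBasis (Fin β) ℝ F)
    (B : ℝ≥0 → Ω → Matrix (Fin r) (Fin r) F) (P : Measure Ω) : Prop where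
  herm : ∀ t ω, Herm (B t ω)
  bm : ∀ α : Idx r β, IsBrownianReal (fun t ω => coord e (B t ω) α) P
  indep : iIndepFun (fun (α : Idx r β) ω (t : ℝ≥0) => coord e (B t ω) α) P

/-- The matrices `A_α` with `B = Σ_α b_α A_α / √2 `, including the factor `√2`. -/
noncomputable def basisM {β : ℕ} (e : OrthonormalBasis (Fin β) ℝ F) :
    Idx r β → Matrix (Fin r) (Fin r) F
  | Sum.inl i => Matrix.of fun k l => if k = i ∧ l = i then (Real.sqrt 2 * Real.sqrt (2 / β)) • (1 : F)
      else 0
  | Sum.inr (p, c) => Matrix.of fun k l =>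
      if k = p.1.1 ∧ l = p.1.2 then (Real.sqrt 2 * Real.sqrt (1 / β)) • e c
      else if k = p.1.2 ∧ l = p.1.1 then (Real.sqrt 2 * Real.sqrt (1 / β)) • star (e c)
      else 0

end fdefs

section fstm

/-- SA-RCH: the three algebras. -/
def S_RCH : Prop := IsRCH ℝ ∧ IsRCH ℂ ∧ IsRCH ℍ[ℝ]

/-- SA-OPM: the operators of Hermitian matrices. -/
def S_OPM : Prop := ∀ (F : Type) [NormedDivisionRing F] [StarRing F] [InnerProductSpace ℝ F]
  [IsScalarTower ℝ F F] [SMulCommClass ℝ F F] [FiniteDimensional ℝ F], IsRCH F → ∀ (r : ℕ),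
  (∀ M : Matrix (Fin r) (Fin r) F, Herm M → Sym (opM M)) ∧
  (∀ (M : Matrix (Fin r) (Fin r) F) (v : VF F r) (c : F), opM M (rmul v c) = rmul (opM M v) c) ∧
  (∀ (v w : VF F r) (c : F), inner ℝ (rmul v c) (rmul w c) = ‖c‖ ^ 2 * inner ℝ v w) ∧
  ∀ (β : ℕ) (e : OrthonormalBasis (Fin β) ℝ F), 1 ≤ β →
    (∀ α : Idx r β, Sym (opM (basisM e α))) ∧
    ∀ B : Matrix (Fin r) (Fin r) F, Herm B →
      Real.sqrt 2 • opM B = ∑ α : Idx r β, coord e B α • opM (basisM e α)

/-- SA-FM: the min-max values over `F` and over `ℝ`. -/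
def S_FM : Prop := ∀ (F : Type) [NormedDivisionRing F] [StarRing F] [InnerProductSpace ℝ F]
  [IsScalarTower ℝ F F] [SMulCommClass ℝ F F] [FiniteDimensional ℝ F], IsRCH F → ∀ (r β : ℕ),
  Module.finrank ℝ F = β → ∀ (κ C : ℝ) (S : VF F r →L[ℝ] VF F r) (W : ℝ → VF F r →L[ℝ] VF F r),
  0 < κ → Sym S → GoodW W → LB κ C S W →
  (∀ v c, S (rmul v c) = rmul (S v) c) → (∀ x v c, W x (rmul v c) = rmul (W x v) c) →
  (∀ k, (mmset (tst (VF F r)) (form κ S W) nsq k).Nonempty) →
  ∀ k, (mmF (form κ S W) k).Nonempty ∧ BddBelow (mmF (form κ S W) k) ∧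
    ∀ i, i < β → lam (tst (VF F r)) (form κ S W) nsq (β * k + i) = lamF (form κ S W) k

end fstm

end Pool.Agent.Y782.SA
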