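import Pool.Agent.Y782.SA.Asm3
import Pool.Agent.Y782.SA.FDefs

/-!
# The multivariate stochastic Airy operator: from the general theorem to `F = ℝ, ℂ, ℍ`
-/

set_option autoImplicit false

open MeasureTheory ProbabilityTheory Set Filter Topology
open scoped NNReal ENNReal Quaternion

namespace Pool.Agent.Y782.SA

section fin

variable {F : Type} [NormedDivisionRing F] [StarRing F] [InnerProductSpace ℝ F]
  [IsScalarTower ℝ F F] [SMulCommClass ℝ F F] [FiniteDimensional ℝ F] {r : ℕ}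

/-- The operator path `√2 B_x` acting on `F^r`. -/
noncomputable def noise (B : ℝ≥0 → Matrix (Fin r) (Fin r) F) (x : ℝ) : VF F r →L[ℝ] VF F r :=
  Real.sqrt 2 • opM (B x.toNNReal)

/-- The quadratic form of the multivariate stochastic Airy operator
`-d²/dx² + √2 B'_x + r x` on `[0, ∞)` with boundary condition `f' 0 = S (f 0)`. -/
noncomputable def airyForm (S : Matrix (Fin r) (Fin r) F) (B : ℝ≥0 → Matrix (Fin r) (Fin r) F) :
    (ℝ → VF F r) → ℝ := form (r : ℝ) (opM S) (noise B)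

/-- The `k`-th eigenvalue, `k = 0, 1, ...`. -/
noncomputable def eig (S : Matrix (Fin r) (Fin r) F) (B : ℝ≥0 → Matrix (Fin r) (Fin r) F) (k : ℕ) :
    ℝ := lamF (airyForm S B) k

/-- The eigenvalue point process (as a counting measure, with multiplicities). -/
noncomputable def eigProc (S : Matrix (Fin r) (Fin r) F) (B : ℝ≥0 → Matrix (Fin r) (Fin r) F) :
    Measure ℝ := Measure.sum fun k => Measure.dirac (eig S B k)

/-- Number rigidity of a random counting measure: for every bounded Borel set `A` the number of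
points in `A` is almost surely a measurable function of the configuration outside `A`. -/
def NumberRigid {Ω : Type} [MeasurableSpace Ω] (P : Measure Ω) (N : Ω → Measure ℝ) : Prop :=
  ∀ A : Set ℝ, MeasurableSet A → Bornology.IsBounded A →
    ∃ g : Measure ℝ → ℝ≥0∞, Measurable g ∧ ∀ᵐ ω ∂P, N ω A = g ((N ω).restrict Aᶜ)

variable (F) in
/-- The statement for one algebra `F`, with `β = dim_ℝ F`. -/
def AiryRigid (β : ℕ) (e : OrthonormalBasis (Fin β) ℝ F) : Prop :=
  ∀ (r : ℕ), 1 ≤ r → ∀ (S : Matrix (Fin r) (Fin r) F), Herm S →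
  ∀ (Ω : Type) [MeasurableSpace Ω] (P : Measure Ω) [IsProbabilityMeasure P]
    (B : ℝ≥0 → Ω → Matrix (Fin r) (Fin r) F), MatBM e B P →
    (∀ k, AEMeasurable (fun ω => eig S (fun t => B t ω) k) P) ∧
    (∀ᵐ ω ∂P, (∀ k, (mmF (airyForm S fun t => B t ω) k).Nonempty ∧
      BddBelow (mmF (airyForm S fun t => B t ω) k)) ∧
      Tendsto (fun k => eig S (fun t => B t ω) k) atTop atTop) ∧
    NumberRigid P (fun ω => eigProc S (fun t => B t ω)) ∧
    ∃ g : Measure ℝ → ℝ≥0∞, Measurable g ∧ ∀ᵐ ω ∂P, ∀ A : Set ℝ, MeasurableSet A →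
      Bornology.IsBounded A →
      eigProc S (fun t => B t ω) A = g ((eigProc S fun t => B t ω).restrict Aᶜ)

theorem sum_dirac_mod (β : ℕ) (hβ : 0 < β) (a l : ℕ → ℝ)
    (h : ∀ k i, i < β → l (β * k + i) = a k) :
    (Measure.sum fun n => Measure.dirac (l n)) =
      (β : ℝ≥0∞) • (Measure.sum fun k => Measure.dirac (a k)) := by
  have : NeZero β := ⟨hβ.ne'⟩
  ext s hs
  rw [Measure.smul_apply, Measure.sum_apply _ hs, Measure.sum_apply _ hs,
    ← (Nat.divModEquiv β).symm.tsum_eq (fun n => Measure.dirac (l n) s), ENNReal.tsum_prod']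
  have : ∀ (k : ℕ) (i : Fin β), Measure.dirac (l ((Nat.divModEquiv β).symm (k, i))) s =
      Measure.dirac (a k) s := by
    intro k i
    have e1 : (Nat.divModEquiv β).symm (k, i) = β * k + i := by
      simp [Nat.divModEquiv, mul_comm]
    rw [e1, h k i i.2]
  simp_rw [this]
  rw [smul_eq_mul, ← ENNReal.tsum_mul_left]
  refine tsum_congr fun k => ?_
  simp

theorem airy (hMAIN : S_MAIN) (hOPM : S_OPM) (hFM : S_FM) (hF : IsRCH F) (β : ℕ)
    (e : OrthonormalBasis (Fin β) ℝ F) : AiryRigid F β e := by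
  intro r hr S hS Ω _ P _ B hB
  have hβ' : Module.finrank ℝ F = β := by
    simpa using Module.finrank_eq_card_basis e.toBasis
  have hβ : 0 < β := by
    rw [← hβ']; exact Module.finrank_pos
  obtain ⟨hsym, hcomm, hinner, hbas⟩ := hOPM F hF r
  obtain ⟨hbsym, hbrep⟩ := hbas β e hβ
  have hnt : Nontrivial (VF F r) := by
    have : Nonempty (Fin r) := ⟨⟨0, hr⟩⟩
    infer_instance
  obtain ⟨hm, g, hg, hae⟩ := hMAIN (VF F r) (Idx r β) (fun α => opM (basisM e α)) (r : ℝ) (opM S)
    (by exact_mod_cast hr) (hsym S hS) hbsym Ω P (fun α t ω => coord e (B t ω) α) hB.bm hB.indep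
  have hpath : ∀ ω, path (fun α => opM (basisM e α)) (fun α t => coord e (B t ω) α) =
      noise (fun t => B t ω) := by
    intro ω
    funext x
    exact (hbrep (B x.toNNReal ω) (hB.herm _ ω)).symm
  simp only [hpath] at hm hae
  have hrel : ∀ᵐ ω ∂P, ∀ k, (mmF (airyForm S fun t => B t ω) k).Nonempty ∧
      BddBelow (mmF (airyForm S fun t => B t ω) k) ∧ ∀ i, i < β →
      lam (tst (VF F r)) (form (r : ℝ) (opM S) (noise fun t => B t ω)) nsq (β * k + i) =
        eig S (fun t => B t ω) k := by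
    filter_upwards [hae] with ω hω
    obtain ⟨hW, ⟨C, hC, hLB⟩, hne, -, -⟩ := hω
    exact hFM F hF r β hβ' (r : ℝ) C (opM S) (noise fun t => B t ω) (by exact_mod_cast hr)
      (hsym S hS) hW hLB (fun v c => hcomm S v c) (fun x v c => by
        simp only [noise, smul_apply]
        rw [hcomm]
        ext i
        simp [rmul, smul_mul_assoc]) hne
  have hN : ∀ᵐ ω ∂P, (Measure.sum fun n => Measure.dirac
      (lam (tst (VF F r)) (form (r : ℝ) (opM S) (noise fun t => B t ω)) nsq n)) =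
      (β : ℝ≥0∞) • eigProc S (fun t => B t ω) := by
    filter_upwards [hrel] with ω hω
    exact sum_dirac_mod β hβ _ _ fun k i hi => (hω k).2.2 i hi
  have huni : ∃ g : Measure ℝ → ℝ≥0∞, Measurable g ∧ ∀ᵐ ω ∂P, ∀ A : Set ℝ, MeasurableSet A →
      Bornology.IsBounded A →
      eigProc S (fun t => B t ω) A = g ((eigProc S fun t => B t ω).restrict Aᶜ) := by
    refine ⟨fun μ => (β : ℝ≥0∞)⁻¹ * g ((β : ℝ≥0∞) • μ), ?_, ?_⟩
    · refine Measurable.const_mul (hg.comp ?_) _
      refine Measure.measurable_of_measurable_coe _ fun s hs => ?_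
      simp only [Measure.smul_apply, smul_eq_mul]
      exact (Measure.measurable_coe hs).const_mul _
    · filter_upwards [hae, hN] with ω hω hNω A hA hAb
      obtain ⟨-, -, -, -, hrig⟩ := hω
      have h1 := hrig A hA hAb
      rw [hNω, Measure.smul_apply, Measure.restrict_smul] at h1
      rw [← h1, smul_eq_mul, ← mul_assoc, ENNReal.inv_mul_cancel (by exact_mod_cast hβ.ne')
        (ENNReal.natCast_ne_top β), one_mul]
  refine ⟨fun k => ?_, ?_, ?_, huni⟩
  · refine (hm (β * k)).congr ?_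
    filter_upwards [hrel] with ω hω
    exact (hω k).2.2 0 hβ
  · filter_upwards [hrel, hae] with ω hω hω2
    refine ⟨fun k => ⟨(hω k).1, (hω k).2.1⟩, ?_⟩
    obtain ⟨-, -, -, ⟨α, c₁, hα, hgr⟩, -⟩ := hω2
    refine tendsto_atTop_mono (f := fun k : ℕ => α * ((k : ℝ) + 1) ^ (2 / 3 : ℝ) - c₁) ?_ ?_
    · intro k
      have h1 := hgr (β * k)
      have e0 := (hω k).2.2 0 hβ
      rw [add_zero] at e0
      rw [e0] at h1
      refine le_trans ?_ h1
      have h2 : (k : ℝ) ≤ ((β * k : ℕ) : ℝ) := by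
        exact_mod_cast Nat.le_mul_of_pos_left k hβ
      gcongr
    · refine tendsto_atTop_add_const_right _ _ (Tendsto.const_mul_atTop hα ?_)
      exact (tendsto_rpow_atTop (by norm_num)).comp
        (tendsto_atTop_add_const_right _ _ tendsto_natCast_atTop_atTop)
  · intro A hA hAb
    obtain ⟨g, hg, h⟩ := huni
    refine ⟨g, hg, ?_⟩
    filter_upwards [h] with ω hω
    exact hω A hA hAb

end fin

/-- The theorem for the three algebras. -/
def S_FINAL : Prop :=
  (∀ e : OrthonormalBasis (Fin 1) ℝ ℝ, AiryRigid ℝ 1 e) ∧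
  (∀ e : OrthonormalBasis (Fin 2) ℝ ℂ, AiryRigid ℂ 2 e) ∧
  (∀ e : OrthonormalBasis (Fin 4) ℝ ℍ[ℝ], AiryRigid ℍ[ℝ] 4 e)

theorem final (hMAIN : S_MAIN) (hRCH : S_RCH) (hOPM : S_OPM) (hFM : S_FM) : S_FINAL :=
  ⟨fun e => airy hMAIN hOPM hFM hRCH.1 1 e, fun e => airy hMAIN hOPM hFM hRCH.2.1 2 e,
    fun e => airy hMAIN hOPM hFM hRCH.2.2 4 e⟩

end Pool.Agent.Y782.SA
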