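import Pool.Agent.Y782.SA.Stm

/-!
# SA-MOM
-/

set_option autoImplicit false

open MeasureTheory ProbabilityTheory Set Filter Topology
open scoped NNReal ENNReal

namespace Pool.Agent.Y782.SA.Mom

open Pool.Agent.Y782.SA

/-- Partial sums over a window. -/
theorem window (F : ℕ → ℝ) (n s N D : ℕ) (hN : s ≤ N) (hND : N ≤ s + D) :
    (∑ k ∈ Finset.range n, if s ≤ k ∧ k < N then F k else 0) =
      ∑ l ∈ Finset.range (min D (n - s)), if l < N - s then F (s + l) else 0 := by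
  rw [← Finset.sum_filter, ← Finset.sum_filter]
  refine Finset.sum_bij' (fun k _ => k - s) (fun l _ => s + l) ?_ ?_ ?_ ?_ ?_
  · intro k hk
    simp only [Finset.mem_filter, Finset.mem_range] at hk ⊢
    omega
  · intro l hl
    simp only [Finset.mem_filter, Finset.mem_range] at hl ⊢
    omega
  · intro k hk
    simp only [Finset.mem_filter, Finset.mem_range] at hk
    omega
  · intro l hl
    omega
  · intro k hk
    simp only [Finset.mem_filter, Finset.mem_range] at hk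
    congr 1
    omega

section det

variable {E : Type} [NormedAddCommGroup E] [InnerProductSpace ℝ E]
variable {ι : Type} [Fintype ι] (A : ι → E →L[ℝ] E)

/-- extension of the coordinates by zero -/
noncomputable def ext {n : ℕ} (ξ : Fin n × ι → ℝ) (α : ι) (k : ℕ) : ℝ :=
  if h : k < n then ξ (⟨k, h⟩, α) else 0

theorem stepW_eq {D n : ℕ} (hD : 1 ≤ D) (ξ : Fin n × ι → ℝ) (x : ℝ) (hx : 0 ≤ x) :
    stepW A D n ξ x = ∑ α, ((∑ k ∈ Finset.range n, if k < ⌊x * D⌋₊ then ext ξ α k else 0) /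
      Real.sqrt D) • A α := by
  unfold stepW
  rw [Fintype.sum_prod_type_right]
  refine Finset.sum_congr rfl fun α _ => ?_
  rw [Finset.sum_div, Finset.sum_smul, Finset.sum_range]
  refine Finset.sum_congr rfl fun k _ => ?_
  have hD' : (0 : ℝ) < D := by exact_mod_cast hD
  have hiff : ((k : ℕ) + 1 : ℝ) / D ≤ x ↔ (k : ℕ) < ⌊x * D⌋₊ := by
    rw [div_le_iff₀ hD', ← Nat.succ_le_iff, Nat.le_floor_iff (by positivity)]
    push_cast
    rfl
  by_cases h : (k : ℕ) < ⌊x * D⌋₊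
  · rw [if_pos (hiff.2 h), if_pos h]
    simp [ext]
  · rw [if_neg (fun h' => h (hiff.1 h')), if_neg h]
    simp

theorem diff_eq {D n : ℕ} (hD : 1 ≤ D) (ξ : Fin n × ι → ℝ) (j : ℕ) (x : ℝ)
    (hx : x ∈ Icc (j : ℝ) (j + 1)) :
    stepW A D n ξ x - stepW A D n ξ j = ∑ α, ((∑ l : Fin (min D (n - j * D)),
      if (l : ℕ) < ⌊x * D⌋₊ - j * D then ext ξ α (j * D + l) else 0) / Real.sqrt D) • A α := by
  have hx0 : (0 : ℝ) ≤ x := le_trans (by positivity) hx.1
  have hj : ⌊(j : ℝ) * D⌋₊ = j * D := by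
    rw [← Nat.cast_mul, Nat.floor_natCast]
  have h1 : j * D ≤ ⌊x * D⌋₊ := by
    refine Nat.le_floor ?_
    push_cast
    exact mul_le_mul_of_nonneg_right hx.1 (by positivity)
  have h2 : ⌊x * D⌋₊ ≤ j * D + D := by
    have : x * D ≤ ((j * D + D : ℕ) : ℝ) := by
      push_cast
      have := mul_le_mul_of_nonneg_right hx.2 (show (0:ℝ) ≤ D by positivity)
      linarith
    exact (Nat.floor_le_floor this).trans (Nat.floor_natCast _).le
  rw [stepW_eq A hD ξ x hx0, stepW_eq A hD ξ j (by positivity), ← Finset.sum_sub_distrib, hj]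
  refine Finset.sum_congr rfl fun α _ => ?_
  rw [← sub_smul, ← sub_div, ← Finset.sum_sub_distrib]
  congr 2
  rw [← Fin.sum_univ_eq_sum_range (fun k => (if k < ⌊x * ↑D⌋₊ then ext ξ α k else 0) -
    if k < j * D then ext ξ α k else 0) n]
  rw [Fin.sum_univ_eq_sum_range (fun k => (if k < ⌊x * ↑D⌋₊ then ext ξ α k else 0) -
    if k < j * D then ext ξ α k else 0) n]
  rw [Fin.sum_univ_eq_sum_range (fun l => if l < ⌊x * D⌋₊ - j * D then ext ξ α (j * D + l) else 0)
    (min D (n - j * D)), ← window (ext ξ α) n (j * D) ⌊x * D⌋₊ D h1 h2]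
  refine Finset.sum_congr rfl fun k _ => ?_
  by_cases hk : k < ⌊x * D⌋₊
  · by_cases hk2 : k < j * D
    · rw [if_pos hk, if_pos hk2, if_neg (by omega), sub_self]
    · rw [if_pos hk, if_neg hk2, if_pos ⟨by omega, hk⟩, sub_zero]
  · rw [if_neg hk, if_neg (by omega), if_neg (by omega), sub_zero]

end det

theorem y_pow (Z : ℝ) (hZ : 0 ≤ Z) :
    (2 * Z + 32 * Z ^ 2) ^ 8 ≤ 128 * (2 ^ 8 + 32 ^ 8) * (1 + Z ^ 16) := by
  have h1 : (2 * Z + 32 * Z ^ 2) ^ 8 ≤ 2 ^ 7 * ((2 * Z) ^ 8 + (32 * Z ^ 2) ^ 8) :=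
    add_pow_le (by positivity) (by positivity) 8
  have h2 : Z ^ 8 ≤ 1 + Z ^ 16 := by nlinarith [sq_nonneg (Z ^ 8 - 1), pow_nonneg hZ 8]
  have h3 : (2 * Z) ^ 8 + (32 * Z ^ 2) ^ 8 = 2 ^ 8 * Z ^ 8 + 32 ^ 8 * Z ^ 16 := by ring
  rw [h3] at h1
  nlinarith [pow_nonneg hZ 16]

theorem max_pow {y a : ℝ} (hy : 0 ≤ y) (ha : 0 < a) : (max 0 (y - a)) ^ 4 ≤ y ^ 8 / a ^ 4 := by
  rcases le_total y a with h | h
  · rw [max_eq_left (by linarith), zero_pow (by norm_num)]
    positivity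
  · rw [max_eq_right (by linarith), le_div_iff₀ (by positivity)]
    have h1 : (y - a) ^ 4 ≤ y ^ 4 := pow_le_pow_left₀ (by linarith) (by linarith) 4
    have h2 : a ^ 4 ≤ y ^ 4 := pow_le_pow_left₀ ha.le h 4
    calc (y - a) ^ 4 * a ^ 4 ≤ y ^ 4 * y ^ 4 := mul_le_mul h1 h2 (by positivity) (by positivity)
      _ = y ^ 8 := by ring

theorem mom (h : S_MAX) : S_MOM := by
  intro E _ _ _ ι _ A κ hκ
  classical
  obtain ⟨K, hK0, hK⟩ := h 16
  set a : ℝ := ∑ α, ‖A α‖ with ha
  have ha0 : 0 ≤ a := Finset.sum_nonneg fun _ _ => norm_nonneg _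
  have haA : ∀ α, ‖A α‖ ≤ a := fun α =>
    Finset.single_le_sum (f := fun α => ‖A α‖) (fun _ _ => norm_nonneg _) (Finset.mem_univ α)
  -- the constants
  set K₂ : ℝ := (Fintype.card ι : ℝ) ^ 15 * (Fintype.card ι * (a ^ 16 * K)) with hK₂
  have hK₂0 : 0 ≤ K₂ := by positivity
  set c₁ : ℝ := 128 * (2 ^ 8 + 32 ^ 8) with hc₁
  have hc₁0 : 0 ≤ c₁ := by positivity
  set B : ℝ := c₁ * (1 + K₂) with hB
  have hB0 : 0 ≤ B := by positivity
  have hsum : Summable (fun j : ℕ => 1 / ((j : ℝ) + 1) ^ 4) := by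
    have := (summable_nat_add_iff 1).2 (Real.summable_one_div_nat_pow.2 (show 1 < 4 by norm_num))
    simpa using this
  set T : ℝ := ∑' j : ℕ, 1 / ((j : ℝ) + 1) ^ 4 with hT
  have hT0 : 0 ≤ T := tsum_nonneg fun j => by positivity
  refine ⟨(1 + B) + B * (16 / κ ^ 4) * T, by positivity, ?_⟩
  intro D n hD
  have hDpos : (0 : ℝ) < D := by exact_mod_cast hD
  set P : Measure (Fin n × ι → ℝ) := Measure.pi fun _ => gaussianReal 0 1 with hP
  have hlt : ∀ (j : ℕ) (l : Fin (min D (n - j * D))), j * D + l < n := by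
    intro j l
    have := l.2
    omega
  have hX : ∀ (j : ℕ) (α : ι) (l : Fin (min D (n - j * D))) (ξ : Fin n × ι → ℝ),
      ext ξ α (j * D + l) = ξ (⟨j * D + l, hlt j l⟩, α) := by
    intro j α l ξ
    simp [ext, hlt j l]
  have hind : iIndepFun (fun (p : Fin n × ι) (ξ : Fin n × ι → ℝ) => ξ p) P :=
    iIndepFun_pi (μ := fun _ : Fin n × ι => gaussianReal 0 1)
      (X := fun (_ : Fin n × ι) (x : ℝ) => x) (fun _ => aemeasurable_id)
  have hY : ∀ (j : ℕ) (α : ι), ∃ Y : (Fin n × ι → ℝ) → ℝ, Measurable Y ∧ (∀ ξ, 0 ≤ Y ξ) ∧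
      (∀ ξ, ∀ i : ℕ, i ≤ min D (n - j * D) → |∑ l : Fin (min D (n - j * D)),
        if (l : ℕ) < i then ext ξ α (j * D + l) else 0| ≤ Y ξ) ∧
      ∫⁻ ξ, ENNReal.ofReal (Y ξ ^ 16) ∂P ≤ ENNReal.ofReal (K * Real.sqrt D ^ 16) := by
    intro j α
    obtain ⟨Y, hYm, hY0, hYb, hYi⟩ := hK (Fin n × ι → ℝ) P (min D (n - j * D))
      (fun l ξ => ξ (⟨j * D + l, hlt j l⟩, α)) (fun l => measurable_pi_apply _)
      (hind.precomp (g := fun l : Fin (min D (n - j * D)) =>
        ((⟨j * D + l, hlt j l⟩ : Fin n), α)) (by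
          intro l l' hl
          simp only [Prod.mk.injEq, Fin.mk.injEq, and_true] at hl
          ext
          omega))
      (fun l => (measurePreserving_eval (fun _ : Fin n × ι => gaussianReal 0 1) _).map_eq)
    refine ⟨Y, hYm, hY0, fun ξ i hi => ?_, hYi.trans (ENNReal.ofReal_le_ofReal ?_)⟩
    · simp only [hX]
      exact hYb ξ i hi
    · refine mul_le_mul_of_nonneg_left (pow_le_pow_left₀ (Real.sqrt_nonneg _)
        (Real.sqrt_le_sqrt ?_) 16) hK0
      exact_mod_cast min_le_left _ _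
  choose Y hYm hY0 hYb hYi using hY
  set Z : ℕ → (Fin n × ι → ℝ) → ℝ := fun j ξ => ∑ α, a * (Y j α ξ / Real.sqrt D) with hZ
  have hZm : ∀ j, Measurable (Z j) := fun j =>
    Finset.measurable_fun_sum _ fun α _ => ((hYm j α).div_const _).const_mul _
  have hZ0 : ∀ j ξ, 0 ≤ Z j ξ := fun j ξ => Finset.sum_nonneg fun α _ =>
    mul_nonneg ha0 (div_nonneg (hY0 j α ξ) (Real.sqrt_nonneg _))
  have hZb : ∀ (j : ℕ) (ξ : Fin n × ι → ℝ) (x : ℝ), x ∈ Icc (j : ℝ) (j + 1) →
      ‖stepW A D n ξ x - stepW A D n ξ j‖ ≤ Z j ξ := by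
    intro j ξ x hx
    rw [diff_eq A hD ξ j x hx]
    refine (norm_sum_le _ _).trans (Finset.sum_le_sum fun α _ => ?_)
    rw [norm_smul, Real.norm_eq_abs, abs_div, abs_of_nonneg (Real.sqrt_nonneg _), mul_comm]
    refine mul_le_mul (haA α) ?_ (by positivity) ha0
    refine div_le_div_of_nonneg_right ?_ (Real.sqrt_nonneg _)
    have := hYb j α ξ (min (⌊x * D⌋₊ - j * D) (min D (n - j * D))) (min_le_right _ _)
    refine le_trans (le_of_eq ?_) this
    congr 1
    refine Finset.sum_congr rfl fun l _ => ?_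
    have hl := l.2
    by_cases h1 : (l : ℕ) < ⌊x * D⌋₊ - j * D
    · rw [if_pos h1, if_pos (lt_min h1 hl)]
    · rw [if_neg h1, if_neg (fun h2 => h1 (lt_of_lt_of_le h2 (min_le_left _ _)))]
  have hZi : ∀ j, ∫⁻ ξ, ENNReal.ofReal (Z j ξ ^ 16) ∂P ≤ ENNReal.ofReal K₂ := by
    intro j
    have h1 : ∀ ξ, ENNReal.ofReal (Z j ξ ^ 16) ≤ ENNReal.ofReal ((Fintype.card ι : ℝ) ^ 15) *
        ∑ α, ENNReal.ofReal (a ^ 16 / Real.sqrt D ^ 16) * ENNReal.ofReal (Y j α ξ ^ 16) := by
      intro ξ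
      have e1 : Z j ξ ^ 16 ≤ (Fintype.card ι : ℝ) ^ 15 * ∑ α, a ^ 16 / Real.sqrt D ^ 16 *
          Y j α ξ ^ 16 := by
        rcases isEmpty_or_nonempty ι with hι | hι
        · simp [hZ]
        · have := pow_sum_div_card_le_sum_pow (s := (Finset.univ : Finset ι))
            (f := fun α => a * (Y j α ξ / Real.sqrt D)) (fun α _ =>
              mul_nonneg ha0 (div_nonneg (hY0 j α ξ) (Real.sqrt_nonneg _))) 15
          have hcard : (0 : ℝ) < ((Finset.univ : Finset ι).card : ℝ) ^ 15 := by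
            have : 0 < (Finset.univ : Finset ι).card := Finset.card_pos.2 Finset.univ_nonempty
            positivity
          rw [div_le_iff₀ hcard, mul_comm] at this
          refine this.trans (le_of_eq ?_)
          congr 1
          refine Finset.sum_congr rfl fun α _ => ?_
          rw [mul_pow, div_pow]
          ring
      refine (ENNReal.ofReal_le_ofReal e1).trans (le_of_eq ?_)
      rw [ENNReal.ofReal_mul (by positivity), ENNReal.ofReal_sum_of_nonneg fun α _ => by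
        have := hY0 j α ξ
        positivity]
      congr 1
      refine Finset.sum_congr rfl fun α _ => ?_
      rw [ENNReal.ofReal_mul (by positivity)]
    refine (lintegral_mono h1).trans ?_
    rw [lintegral_const_mul' _ _ ENNReal.ofReal_ne_top, lintegral_finsetSum]
    · rw [hK₂, ENNReal.ofReal_mul (by positivity)]
      refine mul_le_mul_right ?_ _
      have h2 : ∀ α ∈ (Finset.univ : Finset ι), ∫⁻ ξ, ENNReal.ofReal (a ^ 16 / Real.sqrt D ^ 16) *
          ENNReal.ofReal (Y j α ξ ^ 16) ∂P ≤ ENNReal.ofReal (a ^ 16 * K) := by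
        intro α _
        rw [lintegral_const_mul' _ _ ENNReal.ofReal_ne_top]
        refine (mul_le_mul_right (hYi j α) _).trans ?_
        rw [← ENNReal.ofReal_mul (by positivity)]
        refine ENNReal.ofReal_le_ofReal (le_of_eq ?_)
        have : Real.sqrt D ≠ 0 := (Real.sqrt_pos.2 hDpos).ne'
        field_simp
      refine (Finset.sum_le_sum h2).trans (le_of_eq ?_)
      rw [Finset.sum_const, Finset.card_univ, nsmul_eq_mul,
        ENNReal.ofReal_mul (Nat.cast_nonneg (Fintype.card ι)), ENNReal.ofReal_natCast]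
    · intro α _
      exact (ENNReal.measurable_ofReal.comp ((hYm j α).pow_const 16)).const_mul _
  -- the fourth powers
  set y : ℕ → (Fin n × ι → ℝ) → ℝ := fun j ξ => 2 * Z j ξ + 32 * Z j ξ ^ 2 with hy
  have hy0 : ∀ j ξ, 0 ≤ y j ξ := fun j ξ => by
    have := hZ0 j ξ
    simp only [hy]
    positivity
  have hym : ∀ j, Measurable (y j) := fun j =>
    ((hZm j).const_mul 2).add (((hZm j).pow_const 2).const_mul 32)
  have hyi : ∀ j, ∫⁻ ξ, ENNReal.ofReal (y j ξ ^ 8) ∂P ≤ ENNReal.ofReal B := by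
    intro j
    have h1 : ∀ ξ, ENNReal.ofReal (y j ξ ^ 8) ≤ ENNReal.ofReal c₁ *
        (1 + ENNReal.ofReal (Z j ξ ^ 16)) := by
      intro ξ
      refine (ENNReal.ofReal_le_ofReal (y_pow (Z j ξ) (hZ0 j ξ))).trans (le_of_eq ?_)
      rw [ENNReal.ofReal_mul hc₁0, ENNReal.ofReal_add zero_le_one (pow_nonneg (hZ0 j ξ) 16),
        ENNReal.ofReal_one]
    refine (lintegral_mono h1).trans ?_
    rw [lintegral_const_mul' _ _ ENNReal.ofReal_ne_top, lintegral_add_left measurable_const,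
      hB, ENNReal.ofReal_mul hc₁0, ENNReal.ofReal_add zero_le_one hK₂0, ENNReal.ofReal_one]
    refine mul_le_mul_right ?_ _
    simp only [lintegral_const, measure_univ, mul_one]
    exact add_le_add_right (hZi j) 1
  set u : ℕ → (Fin n × ι → ℝ) → ℝ := fun j ξ => max 0 (y j ξ - κ * j / 2) with hu
  have hum : ∀ j, Measurable (u j) := fun j => measurable_const.max ((hym j).sub_const _)
  have hu0 : ∀ j ξ, 0 ≤ u j ξ := fun j ξ => le_max_left _ _
  set Q : (Fin n × ι → ℝ) → ℝ := fun ξ => ∑ j ∈ Finset.range (n + 1), u j ξ ^ 4 with hQ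
  have hQ0 : ∀ ξ, 0 ≤ Q ξ := fun ξ => Finset.sum_nonneg fun j _ => pow_nonneg (hu0 j ξ) 4
  have hQm : Measurable Q := Finset.measurable_fun_sum _ fun j _ => (hum j).pow_const 4
  set C : (Fin n × ι → ℝ) → ℝ := fun ξ => Real.sqrt (Real.sqrt (Q ξ)) with hC
  have hC4 : ∀ ξ, C ξ ^ 4 = Q ξ := by
    intro ξ
    have e : C ξ ^ 4 = (C ξ ^ 2) ^ 2 := by ring
    rw [e, hC]
    simp only
    rw [Real.sq_sqrt (Real.sqrt_nonneg _), Real.sq_sqrt (hQ0 ξ)]
  have hC0 : ∀ ξ, 0 ≤ C ξ := fun ξ => Real.sqrt_nonneg _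
  refine ⟨C, hQm.sqrt.sqrt, hC0, ?_, ?_⟩
  · intro ξ j x hx
    by_cases hj : j ≤ n
    · have h1 := hZb j ξ x hx
      have h2 : 2 * ‖stepW A D n ξ x - stepW A D n ξ j‖ +
          32 * ‖stepW A D n ξ x - stepW A D n ξ j‖ ^ 2 ≤ y j ξ := by
        simp only [hy]
        gcongr
      have h3 : y j ξ - κ * j / 2 ≤ u j ξ := le_max_right _ _
      have h4 : u j ξ ≤ C ξ := by
        have h5 : u j ξ ^ 4 ≤ C ξ ^ 4 := by
          rw [hC4]
          exact Finset.single_le_sum (f := fun j => u j ξ ^ 4)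
            (fun j _ => pow_nonneg (hu0 j ξ) 4) (Finset.mem_range.2 (by omega))
        exact le_of_pow_le_pow_left₀ (by norm_num) (hC0 ξ) h5
      linarith
    · have h1 : n - j * D = 0 := by
        have : j ≤ j * D := Nat.le_mul_of_pos_right j (by omega)
        omega
      have h2 : stepW A D n ξ x - stepW A D n ξ j = 0 := by
        rw [diff_eq A hD ξ j x hx]
        refine Finset.sum_eq_zero fun α _ => ?_
        have : min D (n - j * D) = 0 := by omega
        rw [Finset.sum_eq_zero, zero_div, zero_smul]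
        intro l _
        exact absurd l.2 (by omega)
      rw [h2]
      have := hC0 ξ
      have : 0 ≤ κ * j / 2 := by positivity
      simp only [norm_zero]
      linarith
  · simp_rw [hC4, hQ]
    have h1 : ∀ ξ, ENNReal.ofReal (∑ j ∈ Finset.range (n + 1), u j ξ ^ 4) =
        ∑ j ∈ Finset.range (n + 1), ENNReal.ofReal (u j ξ ^ 4) := fun ξ =>
      ENNReal.ofReal_sum_of_nonneg fun j _ => pow_nonneg (hu0 j ξ) 4
    simp_rw [h1]
    rw [lintegral_finsetSum (f := fun (j : ℕ) ξ => ENNReal.ofReal (u j ξ ^ 4)) _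
      fun j _ => ENNReal.measurable_ofReal.comp ((hum j).pow_const 4), Finset.sum_range_succ']
    have hzero : ∫⁻ ξ, ENNReal.ofReal (u 0 ξ ^ 4) ∂P ≤ ENNReal.ofReal (1 + B) := by
      have h2 : ∀ ξ, ENNReal.ofReal (u 0 ξ ^ 4) ≤ 1 + ENNReal.ofReal (y 0 ξ ^ 8) := by
        intro ξ
        rw [← ENNReal.ofReal_one, ← ENNReal.ofReal_add zero_le_one (pow_nonneg (hy0 0 ξ) 8)]
        refine ENNReal.ofReal_le_ofReal ?_
        have e1 : u 0 ξ = y 0 ξ := by
          simp only [hu]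
          rw [max_eq_right]
          · simp
          · have := hy0 0 ξ
            simpa using this
        rw [e1]
        nlinarith [sq_nonneg (y 0 ξ ^ 4 - 1), pow_nonneg (hy0 0 ξ) 4]
      refine (lintegral_mono h2).trans ?_
      rw [lintegral_add_left measurable_const, ENNReal.ofReal_add zero_le_one hB0,
        ENNReal.ofReal_one]
      simp only [lintegral_const, measure_univ, mul_one]
      exact add_le_add_right (hyi 0) 1
    have hpos : ∀ j : ℕ, ∫⁻ ξ, ENNReal.ofReal (u (j + 1) ξ ^ 4) ∂P ≤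
        ENNReal.ofReal (B * (16 / κ ^ 4) * (1 / ((j : ℝ) + 1) ^ 4)) := by
      intro j
      have ha' : 0 < κ * ((j : ℝ) + 1) / 2 := by positivity
      have h2 : ∀ ξ, ENNReal.ofReal (u (j + 1) ξ ^ 4) ≤
          ENNReal.ofReal (1 / (κ * ((j : ℝ) + 1) / 2) ^ 4) * ENNReal.ofReal (y (j + 1) ξ ^ 8) := by
        intro ξ
        rw [← ENNReal.ofReal_mul (by positivity)]
        refine ENNReal.ofReal_le_ofReal ?_
        have := max_pow (hy0 (j + 1) ξ) ha'
        simp only [hu]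
        push_cast
        refine this.trans (le_of_eq ?_)
        ring
      refine (lintegral_mono h2).trans ?_
      rw [lintegral_const_mul' _ _ ENNReal.ofReal_ne_top]
      refine (mul_le_mul_right (hyi (j + 1)) _).trans ?_
      rw [← ENNReal.ofReal_mul (by positivity)]
      refine ENNReal.ofReal_le_ofReal (le_of_eq ?_)
      field_simp
      ring
    rw [add_comm, ENNReal.ofReal_add (by positivity) (by positivity)]
    refine add_le_add hzero ((Finset.sum_le_sum fun j _ => hpos j).trans ?_)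
    rw [← ENNReal.ofReal_sum_of_nonneg fun j _ => by positivity, ← Finset.mul_sum]
    refine ENNReal.ofReal_le_ofReal (mul_le_mul_of_nonneg_left ?_ (by positivity))
    exact hsum.sum_le_tsum _ fun j _ => by positivity

end Pool.Agent.Y782.SA.Mom
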