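import Pool.Agent.Y782.SA.Defs

/-!
# Statements of the jobs (project SA, MP_3ced87_pr)
-/

set_option autoImplicit false

open MeasureTheory ProbabilityTheory Set Filter Topology
open scoped NNReal ENNReal

namespace Pool.Agent.Y782.SA

/-- SA-BASE: the matrices of the form; elementary facts. -/
def S_BASE : Prop := ∀ (E : Type) [NormedAddCommGroup E] [InnerProductSpace ℝ E]
  [FiniteDimensional ℝ E] (κ : ℝ) (S : E →L[ℝ] E) (W : ℝ → E →L[ℝ] E), Sym S → GoodW W →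
  (∀ (m : ℕ) (v : Fin m → ℝ → E), (∀ i, IsTest (v i)) →
    (matQ κ S W v).IsSymm ∧ (matG v).IsSymm ∧
    (∀ c : Fin m → ℝ, qf (matQ κ S W v) c = form κ S W (∑ i, c i • v i)) ∧
    (∀ c : Fin m → ℝ, qf (matG v) c = nsq (∑ i, c i • v i)) ∧
    (Sys v → (matG v).PosDef ∧ ∀ k, lam (Submodule.span ℝ (Set.range v)) (form κ S W) nsq k =
      lam ⊤ (qf (matQ κ S W v)) (qf (matG v)) k))

/-- SA-STEP: adding a jump to the path; the step path is admissible. -/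
def S_STEP : Prop := ∀ (E : Type) [NormedAddCommGroup E] [InnerProductSpace ℝ E]
  [FiniteDimensional ℝ E],
  (∀ (κ : ℝ) (S : E →L[ℝ] E) (W : ℝ → E →L[ℝ] E) (B : E →L[ℝ] E) (t : ℝ), GoodW W → Sym B →
    0 < t → GoodW (fun x => W x + if t ≤ x then B else 0) ∧
    ∀ f g : ℝ → E, IsTest f → IsTest g →
      bform κ S (fun x => W x + if t ≤ x then B else 0) f g =
        bform κ S W f g + inner ℝ (B (f t)) (g t)) ∧
  (∀ (ι : Type) [Fintype ι] (A : ι → E →L[ℝ] E) (D n : ℕ) (ξ : Fin n × ι → ℝ), (∀ α, Sym (A α)) →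
    1 ≤ D → GoodW (stepW A D n ξ) ∧ ∀ (κ : ℝ) (S : E →L[ℝ] E) (f g : ℝ → E), IsTest f → IsTest g →
      bform κ S (stepW A D n ξ) f g = bform κ S (fun _ => 0) f g +
        ∑ p : Fin n × ι, ξ p / Real.sqrt D * inner ℝ (A p.2 (f (((p.1 : ℕ) + 1 : ℝ) / D)))
          (g (((p.1 : ℕ) + 1 : ℝ) / D)))

/-- SA-G: pointwise bound. -/
def S_G : Prop := ∀ (E : Type) [NormedAddCommGroup E] [InnerProductSpace ℝ E]
  [FiniteDimensional ℝ E] (κ : ℝ) (f : ℝ → E) (t : ℝ), 0 ≤ κ → IsTest f → 0 ≤ t →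
  ‖f t‖ ^ 2 * Real.sqrt (κ * t + 1) ≤ dsq f + κ * xsq f + nsq f

/-- SA-LB: lower bound of the form. -/
def S_LB : Prop := ∀ (E : Type) [NormedAddCommGroup E] [InnerProductSpace ℝ E]
  [FiniteDimensional ℝ E] (κ C : ℝ) (S : E →L[ℝ] E) (W : ℝ → E →L[ℝ] E), 0 < κ → GoodW W →
  Rough κ C W → LB κ (C + 4 * ‖S‖ ^ 2) S W

/-- SA-RK: rank one perturbation of the log-determinant. -/
def S_RK : Prop := ∀ (m : ℕ) (Q G : Matrix (Fin m) (Fin m) ℝ) (w : Fin m → ℝ) (s a τ M : ℝ),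
  Q.IsSymm → G.PosDef → 1 ≤ a → 0 ≤ τ → 1 ≤ M →
  (∀ x, -(a - 1) * qf G x ≤ qf Q x) → (∀ x, (w ⬝ᵥ x) ^ 2 ≤ τ * (qf Q x + a * qf G x)) →
  (∀ x, -(a - 1) * qf G x ≤ qf (Q + s • Matrix.vecMulVec w w) x) →
  (∀ x, (w ⬝ᵥ x) ^ 2 ≤ τ * (qf (Q + s • Matrix.vecMulVec w w) x + a * qf G x)) →
  |Tm M (Q + s • Matrix.vecMulVec w w) G - Tm M Q G| ≤ 3 * |s| * τ * a

/-- SA-EIG: the log-determinant is a linear statistic of the min-max values. -/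
def S_EIG : Prop := ∀ (m : ℕ) (Q G : Matrix (Fin m) (Fin m) ℝ) (M : ℝ), Q.IsSymm → G.PosDef →
  1 ≤ M → Tm M Q G = ∑ k ∈ Finset.range m, hf M (lam ⊤ (qf Q) (qf G) k)

/-- SA-LCONT: continuity of the min-max values. -/
def S_LCONT : Prop := ∀ (m : ℕ) (G : Matrix (Fin m) (Fin m) ℝ) (k : ℕ), G.PosDef → k < m →
  Continuous (fun Q : Matrix (Fin m) (Fin m) ℝ => lam ⊤ (qf Q) (qf G) k)

/-- SA-PERT: the effect of one jump on the log-determinant. -/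
def S_PERT : Prop := ∀ (E : Type) [NormedAddCommGroup E] [InnerProductSpace ℝ E]
  [FiniteDimensional ℝ E] (κ C : ℝ) (S : E →L[ℝ] E) (W : ℝ → E →L[ℝ] E) (B : E →L[ℝ] E) (t M : ℝ)
  (m : ℕ) (v : Fin m → ℝ → E), 0 < κ → 0 ≤ C → Sym S → GoodW W → Rough2 κ C W → Sym B → 0 < t →
  1 ≤ M → Sys v →
  |Tm M (matQ κ S (fun x => W x + if t ≤ x then B else 0) v) (matG v)
    - Tm M (matQ κ S W v) (matG v)| ≤
  6 * Module.finrank ℝ E * ‖B‖ * (Real.sqrt (κ * t + 1))⁻¹ *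
    (C + ‖B‖ + 32 * ‖B‖ ^ 2 + 4 * ‖S‖ ^ 2 + 1)

/-- SA-MAX: moments of the maximum of a Gaussian random walk. -/
def S_MAX : Prop := ∀ p : ℕ, ∃ K : ℝ, 0 ≤ K ∧ ∀ (Ω : Type) [MeasurableSpace Ω] (P : Measure Ω)
  [IsProbabilityMeasure P] (D : ℕ) (X : Fin D → Ω → ℝ), (∀ i, Measurable (X i)) →
  iIndepFun X P → (∀ i, P.map (X i) = gaussianReal 0 1) →
  ∃ Y : Ω → ℝ, Measurable Y ∧ (∀ ω, 0 ≤ Y ω) ∧
    (∀ ω, ∀ i : ℕ, i ≤ D → |∑ l : Fin D, if (l : ℕ) < i then X l ω else 0| ≤ Y ω) ∧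
    ∫⁻ ω, ENNReal.ofReal (Y ω ^ p) ∂P ≤ ENNReal.ofReal (K * Real.sqrt D ^ p)

/-- SA-MOM: uniform moment bound for the roughness constant of the step path. -/
def S_MOM : Prop := ∀ (E : Type) [NormedAddCommGroup E] [InnerProductSpace ℝ E]
  [FiniteDimensional ℝ E] (ι : Type) [Fintype ι] (A : ι → E →L[ℝ] E) (κ : ℝ), 0 < κ →
  ∃ K : ℝ, 0 ≤ K ∧ ∀ D n : ℕ, 1 ≤ D → ∃ C : (Fin n × ι → ℝ) → ℝ, Measurable C ∧ (∀ ξ, 0 ≤ C ξ) ∧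
    (∀ ξ, Rough2 κ (C ξ) (stepW A D n ξ)) ∧
    ∫⁻ ξ, ENNReal.ofReal (C ξ ^ 4) ∂(Measure.pi fun _ : Fin n × ι => gaussianReal 0 1) ≤
      ENNReal.ofReal K

/-- SA-DISC: variance bound for the discretised model. -/
def S_DISC : Prop := ∀ (E : Type) [NormedAddCommGroup E] [InnerProductSpace ℝ E]
  [FiniteDimensional ℝ E] (ι : Type) [Fintype ι] (A : ι → E →L[ℝ] E) (κ : ℝ) (S : E →L[ℝ] E),
  0 < κ → Sym S → (∀ α, Sym (A α)) →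
  ∃ K : ℝ, 0 ≤ K ∧ ∀ (D n m : ℕ) (v : Fin m → ℝ → E) (M : ℝ), 1 ≤ D → Sys v → 1 ≤ M →
    Measurable (fun ξ : Fin n × ι → ℝ => Tm M (matQ κ S (stepW A D n ξ) v) (matG v)) ∧
    ∃ c : ℝ, ∫⁻ ξ, ENNReal.ofReal ((Tm M (matQ κ S (stepW A D n ξ) v) (matG v) - c) ^ 2)
      ∂(Measure.pi fun _ : Fin n × ι => gaussianReal 0 1) ≤
      ENNReal.ofReal (K * ∑ k ∈ Finset.range n, 1 / (κ * (k + 1) + D))

/-- SA-BML: the law of the Brownian increments. -/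
def S_BML : Prop := ∀ (Ω : Type) [MeasurableSpace Ω] (P : Measure Ω) [IsProbabilityMeasure P]
  (ι : Type) [Fintype ι] (b : ι → ℝ≥0 → Ω → ℝ), (∀ α, IsPreBrownianReal (b α) P) →
  iIndepFun (fun α ω t => b α t ω) P → ∀ D n : ℕ, 1 ≤ D →
  HasLaw (fun ω => incr (fun α t => b α t ω) D n)
    (Measure.pi fun _ : Fin n × ι => gaussianReal 0 1) P

/-- SA-DCONV: the discretised forms converge. -/
def S_DCONV : Prop := ∀ (E : Type) [NormedAddCommGroup E] [InnerProductSpace ℝ E]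
  [FiniteDimensional ℝ E] (ι : Type) [Fintype ι] (A : ι → E →L[ℝ] E) (κ : ℝ) (S : E →L[ℝ] E)
  (b : ι → ℝ≥0 → ℝ), (∀ α, Sym (A α)) → (∀ α, Continuous (b α)) → (∀ α, b α 0 = 0) →
  GoodW (path A b) ∧
  (∀ (D n : ℕ) (x : ℝ), 1 ≤ D → 0 ≤ x → x * D < n + 1 →
    stepW A D n (incr b D n) x = path A b (⌊x * D⌋₊ / D)) ∧
  ∀ (L : ℕ) (f g : ℝ → E), f ∈ tstL E L → g ∈ tstL E L →
    Tendsto (fun D : ℕ => bform κ S (stepW A (D + 1) (L * (D + 1)) (incr b (D + 1) (L * (D + 1))))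
      f g) atTop (𝓝 (bform κ S (path A b) f g))

/-- SA-FIN: the roughness constant of the Brownian path is almost surely finite. -/
def S_FIN : Prop := ∀ (E : Type) [NormedAddCommGroup E] [InnerProductSpace ℝ E]
  [FiniteDimensional ℝ E] (ι : Type) [Fintype ι] (A : ι → E →L[ℝ] E) (κ : ℝ), 0 < κ →
  (∀ α, Sym (A α)) → ∀ (Ω : Type) [MeasurableSpace Ω] (P : Measure Ω) [IsProbabilityMeasure P]
  (b : ι → ℝ≥0 → Ω → ℝ), (∀ α, IsBrownianReal (b α) P) → iIndepFun (fun α ω t => b α t ω) P →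
  ∀ᵐ ω ∂P, ∃ C : ℝ, 0 ≤ C ∧ Rough2 κ C (path A (fun α t => b α t ω))

/-- SA-GAL: Galerkin approximation. -/
def S_GAL : Prop := ∀ (E : Type) [NormedAddCommGroup E] [InnerProductSpace ℝ E]
  [FiniteDimensional ℝ E] [Nontrivial E] (L : ℝ), 0 < L →
  ∃ (r : ℕ → ℕ) (v : (p : ℕ) → Fin (r p) → ℝ → E), (∀ p, Sys (v p)) ∧ (∀ p i, v p i ∈ tstL E L) ∧
    Tendsto r atTop atTop ∧
    ∀ (κ : ℝ) (S : E →L[ℝ] E) (W : ℝ → E →L[ℝ] E) (C : ℝ), 0 < κ → Sym S → GoodW W →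
      LB κ C S W → ∀ k : ℕ,
      (mmset (tstL E L) (form κ S W) nsq k).Nonempty ∧
      (∀ p, k < r p → (mmset (Submodule.span ℝ (Set.range (v p))) (form κ S W) nsq k).Nonempty) ∧
      Tendsto (fun p => lam (Submodule.span ℝ (Set.range (v p))) (form κ S W) nsq k) atTop
        (𝓝 (lam (tstL E L) (form κ S W) nsq k))

/-- SA-CNT: Weyl type bound. -/
def S_CNT : Prop := ∀ (E : Type) [NormedAddCommGroup E] [InnerProductSpace ℝ E]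
  [FiniteDimensional ℝ E] [Nontrivial E] (κ C : ℝ) (S : E →L[ℝ] E) (W : ℝ → E →L[ℝ] E), 0 < κ →
  0 ≤ C → GoodW W → LB κ C S W → ∀ U : Submodule ℝ (ℝ → E), U ≤ tst E → ∀ (k : ℕ) (s : ℝ),
  s ∈ mmset U (form κ S W) nsq k →
  (κ * (k + 1) / (24 * Module.finrank ℝ E)) ^ (2 / 3 : ℝ) - C - 1 ≤ s

/-- SA-CUT: cutting off the test functions. -/
def S_CUT : Prop := ∃ c₀ : ℝ, 0 ≤ c₀ ∧ ∀ (E : Type) [NormedAddCommGroup E] [InnerProductSpace ℝ E]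
  [FiniteDimensional ℝ E] (κ C : ℝ) (S : E →L[ℝ] E) (W : ℝ → E →L[ℝ] E), 0 < κ →
  0 ≤ C → GoodW W → LB κ C S W → ∀ (k : ℕ) (s L : ℝ), s ∈ mmset (tst E) (form κ S W) nsq k →
  2 ≤ L → 8 * (|s| + C) ≤ κ * L →
  s + 8 * (|s| + C) * (c₀ + C + |s|) / (κ * L) ∈ mmset (tstL E L) (form κ S W) nsq k

/-- SA-LIM: passing to the limit in variance bounds. -/
def S_LIM : Prop := ∀ (Ω : Type) [MeasurableSpace Ω] (P : Measure Ω) [IsProbabilityMeasure P]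
  (X : ℕ → Ω → ℝ) (Y : Ω → ℝ) (V : ℝ), 0 ≤ V → (∀ n, AEMeasurable (X n) P) →
  (∀ᵐ ω ∂P, Tendsto (fun n => X n ω) atTop (𝓝 (Y ω))) →
  (∀ n, ∃ c : ℝ, ∫⁻ ω, ENNReal.ofReal ((X n ω - c) ^ 2) ∂P ≤ ENNReal.ofReal V) →
  AEMeasurable Y P ∧ ∃ c : ℝ, ∫⁻ ω, ENNReal.ofReal ((Y ω - c) ^ 2) ∂P ≤ ENNReal.ofReal (4 * V)

/-- SA-SUM: summability and convergence of the statistics under Galerkin approximation. -/
def S_SUM : Prop := ∀ (M α c₁ : ℝ) (a : ℕ → ℝ) (r : ℕ → ℕ) (l : ℕ → ℕ → ℝ), 1 ≤ M → 0 < α →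
  (∀ k : ℕ, α * ((k : ℝ) + 1) ^ (2 / 3 : ℝ) - c₁ ≤ a k) →
  Summable (fun k => hf M (a k)) ∧
  (Tendsto r atTop atTop → (∀ p k : ℕ, k < r p → α * ((k : ℝ) + 1) ^ (2 / 3 : ℝ) - c₁ ≤ l p k) →
    (∀ k, Tendsto (fun p => l p k) atTop (𝓝 (a k))) →
    Tendsto (fun p => ∑ k ∈ Finset.range (r p), hf M (l p k)) atTop (𝓝 (∑' k, hf M (a k))))

/-- SA-TAIL: the statistics of the full and the cut-off problem are close. -/
def S_TAIL : Prop := ∀ (α c₁ c₂ : ℝ) (a : ℕ → ℝ) (b : ℕ → ℕ → ℝ), 0 < α → 0 ≤ c₁ → 0 ≤ c₂ →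
  (∀ k : ℕ, α * ((k : ℝ) + 1) ^ (2 / 3 : ℝ) - c₁ ≤ a k) → (∀ j k, a k ≤ b j k) →
  (∀ j k, c₂ * (1 + |a k|) ≤ LL j → b j k ≤ a k + c₂ * (1 + |a k|) ^ 2 / LL j) →
  Tendsto (fun j => TT j a - TT j (b j)) atTop (𝓝 0)

/-- SA-RIG: rigidity from the statistics. -/
def S_RIG : Prop := ∀ c : ℕ → ℝ, ∃ g : Measure ℝ → ℝ≥0∞, Measurable g ∧
  ∀ (α c₁ : ℝ) (a : ℕ → ℝ), 0 < α → (∀ k : ℕ, α * ((k : ℝ) + 1) ^ (2 / 3 : ℝ) - c₁ ≤ a k) →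
  Tendsto (fun j => TT j a - c j) atTop (𝓝 0) → ∀ A : Set ℝ, MeasurableSet A →
  Bornology.IsBounded A →
  (Measure.sum fun k => Measure.dirac (a k)) A =
    g ((Measure.sum fun k => Measure.dirac (a k)).restrict Aᶜ)

/-- SA-LOG: the sum of the site weights. -/
def S_LOG : Prop := ∀ (κ : ℝ) (D L : ℕ), 0 < κ → 1 ≤ D → 
  ∑ k ∈ Finset.range (L * D), 1 / (κ * (k + 1) + D) ≤ Real.log (1 + κ * L) / κ

/-- SA-BC: from summable variances to almost sure convergence. -/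
def S_BC : Prop := ∀ (Ω : Type) [MeasurableSpace Ω] (P : Measure Ω) [IsProbabilityMeasure P]
  (X : ℕ → Ω → ℝ) (V : ℕ → ℝ), (∀ j, 0 ≤ V j) → Summable V → (∀ j, AEMeasurable (X j) P) →
  (∀ j, ∫⁻ ω, ENNReal.ofReal (X j ω ^ 2) ∂P ≤ ENNReal.ofReal (V j)) →
  ∀ᵐ ω ∂P, Tendsto (fun j => X j ω) atTop (𝓝 0)

end Pool.Agent.Y782.SA
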